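import Pool.Agent.Helper10_Mackey.Defs

set_option autoImplicit false

namespace Pool.Agent.Helper10_Mackey

open Filter Topology

lemma norm_coe_eq {t : ℝ} (ht : |t| ≤ 1 / 2) : ‖(t : Circ)‖ = |t| := by
  rw [AddCircle.norm_coe_eq_abs_iff (1 : ℝ) one_ne_zero]
  simpa using ht

lemma exists_rep (x : Circ) : ∃ t : ℝ, |t| = ‖x‖ ∧ x = (t : Circ) := by
  obtain ⟨y, rfl⟩ := QuotientAddGroup.mk_surjective x
  refine ⟨y - round y, ?_, ?_⟩
  · exact (UnitAddCircle.norm_eq (x := y)).symm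
  · have : ((round y : ℝ) : Circ) = 0 := by
      rw [AddCircle.coe_eq_zero_iff]
      exact ⟨round y, by simp⟩
    change (y : Circ) = ((y - round y : ℝ) : Circ)
    rw [AddCircle.coe_sub, this, sub_zero]

lemma norm_le_half (x : Circ) : ‖x‖ ≤ 1 / 2 := by
  simpa using AddCircle.norm_le_half_period (1 : ℝ) (x := x) one_ne_zero

lemma norm_coe_le (t : ℝ) : ‖(t : Circ)‖ ≤ |t| := by
  by_cases h : |t| ≤ 1 / 2
  · exact (norm_coe_eq h).le
  · exact (norm_le_half _).trans (le_of_lt (not_le.mp h))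

lemma mem_Tm {m : ℕ} (_hm : 1 ≤ m) {x : Circ} : x ∈ Tm m ↔ ‖x‖ ≤ 1 / (4 * (m : ℝ)) := by
  constructor
  · rintro ⟨t, ht, rfl⟩
    exact (norm_coe_le t).trans ht
  · intro h
    obtain ⟨t, ht, rfl⟩ := exists_rep x
    exact ⟨t, ht ▸ h, rfl⟩

lemma mem_T1 {x : Circ} : x ∈ Tm 1 ↔ ‖x‖ ≤ 1 / 4 := by
  rw [mem_Tm le_rfl]; norm_num

lemma norm_zsmul_le' (k : ℤ) (x : Circ) : ‖k • x‖ ≤ |(k : ℝ)| * ‖x‖ := by
  have := norm_zsmul_le k x
  rwa [Int.norm_eq_abs] at this

lemma multiples {u : Circ} {M : ℕ} (h : ∀ j : ℕ, 1 ≤ j → j ≤ M → ‖(j : ℤ) • u‖ ≤ 1 / 4) :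
    (M : ℝ) * ‖u‖ ≤ 1 / 4 := by
  obtain ⟨t, ht, rfl⟩ := exists_rep u
  have key : ∀ j : ℕ, j ≤ M → (j : ℝ) * |t| ≤ 1 / 4 := by
    intro j
    induction j with
    | zero => intro _; norm_num
    | succ j ih =>
      intro hj
      have h1 : |t| ≤ 1 / 4 := by
        have := h 1 le_rfl (by omega)
        rw [ht]
        simpa using this
      have h2 := ih (by omega)
      have h3 : |((j + 1 : ℕ) : ℝ) * t| ≤ 1 / 2 := by
        rw [abs_mul, abs_of_nonneg (by positivity)]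
        push_cast
        linarith
      have h4 := h (j + 1) (by omega) hj
      have h5 : (((j + 1 : ℕ) : ℤ)) • (t : Circ) = ((((j + 1 : ℕ) : ℝ) * t : ℝ) : Circ) := by
        rw [← AddCircle.coe_zsmul]
        simp
      rw [h5, norm_coe_eq h3, abs_mul, abs_of_nonneg (by positivity : (0:ℝ) ≤ ((j + 1 : ℕ) : ℝ))] at h4
      exact h4
  rw [← ht]
  exact key M le_rfl

lemma signed_sum {ι : Type*} (x : ι → Circ)
    (h : ∀ (I : Finset ι) (ε : ι → ℤ), (∀ i, ε i = 1 ∨ ε i = -1) →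
      ‖∑ i ∈ I, ε i • x i‖ ≤ 1 / 4) (I : Finset ι) :
    ∑ i ∈ I, ‖x i‖ ≤ 1 / 4 := by
  classical
  choose t ht hx using fun i => exists_rep (x i)
  set ε : ι → ℤ := fun i => if 0 ≤ t i then 1 else -1 with hε
  have hε' : ∀ i, ε i = 1 ∨ ε i = -1 := by
    intro i
    by_cases hi : 0 ≤ t i
    · left; simp [hε, hi]
    · right; simp [hε, hi]
  have hεx : ∀ i, ε i • x i = ((|t i| : ℝ) : Circ) := by
    intro i
    by_cases hi : 0 ≤ t i
    · simp only [hε, hi, if_true, one_smul]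
      rw [abs_of_nonneg hi]; exact hx i
    · simp only [hε, hi, if_false, neg_smul, one_smul]
      rw [abs_of_neg (not_le.mp hi), AddCircle.coe_neg, ← hx i]
  have hsum : ∀ J : Finset ι, ∑ i ∈ J, ε i • x i = ((∑ i ∈ J, |t i| : ℝ) : Circ) := by
    intro J
    induction J using Finset.induction_on with
    | empty => simp
    | insert a J ha ih => rw [Finset.sum_insert ha, Finset.sum_insert ha, ih, hεx, AddCircle.coe_add]
  have key : ∀ J : Finset ι, ∑ i ∈ J, |t i| ≤ 1 / 4 := by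
    intro J
    induction J using Finset.induction_on with
    | empty => simp
    | insert a J ha ih =>
      have h1 : |t a| ≤ 1 / 4 := by
        have := h {a} (fun _ => 1) (fun _ => Or.inl rfl)
        rw [ht a]
        simpa using this
      have h2 : abs (∑ i ∈ insert a J, |t i|) ≤ 1 / 2 := by
        rw [abs_of_nonneg (Finset.sum_nonneg fun i _ => abs_nonneg _), Finset.sum_insert ha]
        linarith
      have h3 := h (insert a J) ε hε'
      rw [hsum, norm_coe_eq h2, abs_of_nonneg (Finset.sum_nonneg fun i _ => abs_nonneg _)] at h3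
      exact h3
  calc ∑ i ∈ I, ‖x i‖ = ∑ i ∈ I, |t i| := Finset.sum_congr rfl fun i _ => (ht i).symm
    _ ≤ 1 / 4 := key I

end Pool.Agent.Helper10_Mackey
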