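import Mathlib

/-!
Definitions for the problem on the supremum of the topologies `τ_c` and the Mackey topology on `ℤ`.

In Mathlib's order on topologies, `σ ≤ τ` means that `σ` is FINER than `τ`; hence a supremum of
group topologies in the usual sense (the coarsest topology finer than all of them) is written `⨅`.
-/

set_option autoImplicit false

namespace Pool.Agent.Helper10_Mackey

open Filter Topology

/-- The circle group `𝕋 = ℝ/ℤ`. -/
abbrev Circ : Type := AddCircle (1 : ℝ)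

/-- `𝕋_m = [-1/(4m), 1/(4m)] + ℤ ⊆ 𝕋` (used for `m ≥ 1`); `𝕋₊` is `Tm 1`. -/
def Tm (m : ℕ) : Set Circ := {x | ∃ t : ℝ, |t| ≤ 1 / (4 * (m : ℝ)) ∧ x = (t : Circ)}

section General

variable {G : Type*} [AddCommGroup G]

/-- The character group `(G,τ)^∧`: the continuous homomorphisms `G → 𝕋`. -/
def chars (τ : TopologicalSpace G) : Set (G →+ Circ) :=
  {χ | @Continuous G Circ τ inferInstance χ}

/-- The polar `A^▷ = {χ ∈ (G,τ)^∧ : χ(A) ⊆ 𝕋₊}` of a subset `A` of `G`. -/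
def polar (τ : TopologicalSpace G) (A : Set G) : Set (G →+ Circ) :=
  {χ | χ ∈ chars τ ∧ ∀ a ∈ A, χ a ∈ Tm 1}

/-- `B^◁ = {x ∈ G : χ(x) ∈ 𝕋₊ for all χ ∈ B}` for a set `B` of characters. -/
def prepolar (B : Set (G →+ Circ)) : Set G := {x | ∀ χ ∈ B, χ x ∈ Tm 1}

/-- `A` is quasi-convex in `(G,τ)`: `A = (A^▷)^◁`. -/
def QuasiConvex (τ : TopologicalSpace G) (A : Set G) : Prop := A = prepolar (polar τ A)

/-- `τ` is a locally quasi-convex group topology on `G`: it is a group topology, and `0` has a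
neighbourhood basis consisting of quasi-convex sets. -/
structure IsLQC (τ : TopologicalSpace G) : Prop where
  group : @IsTopologicalAddGroup G τ _
  basis : ∀ U ∈ @nhds G τ 0, ∃ A ∈ @nhds G τ 0, QuasiConvex τ A ∧ A ⊆ U

end General

/-- The character group of `(ℤ,τ)` as a subset of `𝕋`, a character `χ` being identified with
`χ(1)`. -/
def charSet (τ : TopologicalSpace ℤ) : Set Circ := {x | ∃ χ ∈ chars τ, χ 1 = x}

/-- D-sequences: positive integers with `b₀ = 1`, `bₙ ∣ bₙ₊₁` and `bₙ ≠ bₙ₊₁`. -/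
def IsDSeq (b : ℕ → ℕ) : Prop :=
  b 0 = 1 ∧ (∀ n, 0 < b n) ∧ ∀ n, b n ∣ b (n + 1) ∧ b n ≠ b (n + 1)

/-- The class `𝒟_∞`: D-sequences with `bₙ₊₁ / bₙ → ∞`. -/
def IsDInf (b : ℕ → ℕ) : Prop :=
  IsDSeq b ∧ Tendsto (fun n => (b (n + 1) : ℝ) / (b n : ℝ)) atTop atTop

/-- The linear topology `λ_b` on `ℤ`: the coarsest topology for which all the quotient maps
`ℤ → ℤ/bₙℤ` (discrete targets) are continuous.  For a D-sequence `b` its neighbourhood basis at
`0` is `(bₙℤ)`. -/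
def lam (b : ℕ → ℕ) : TopologicalSpace ℤ :=
  ⨅ n : ℕ, TopologicalSpace.induced (fun k : ℤ => (k : ZMod (b n))) ⊥

/-- `V_{S,m} = {k ∈ ℤ : k·x ∈ 𝕋_m for all x ∈ S}` for a set `S ⊆ 𝕋` of characters of `ℤ`. -/
def Vset (S : Set Circ) (m : ℕ) : Set ℤ := {k | ∀ x ∈ S, k • x ∈ Tm m}

/-- The topology on `ℤ` of uniform convergence on a set `S ⊆ 𝕋` of characters of `ℤ`: the group
topology whose neighbourhood basis at `0` is `V_{S,m}`, `m ≥ 1`. -/
def tauOn (S : Set Circ) : TopologicalSpace ℤ where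
  IsOpen U := ∀ k ∈ U, ∃ m : ℕ, 1 ≤ m ∧ ∀ v ∈ Vset S m, k + v ∈ U
  isOpen_univ := fun _ _ => ⟨1, le_rfl, fun _ _ => Set.mem_univ _⟩
  isOpen_inter := by
    rintro U W hU hW k ⟨hkU, hkW⟩
    obtain ⟨m, hm, h⟩ := hU k hkU
    obtain ⟨m', hm', h'⟩ := hW k hkW
    have mono : ∀ {i j : ℕ}, 1 ≤ i → i ≤ j → Tm j ⊆ Tm i := by
      rintro i j hi hij x ⟨t, ht, rfl⟩
      have hi' : (0 : ℝ) < i := by exact_mod_cast hi
      exact ⟨t, ht.trans (one_div_le_one_div_of_le (by positivity)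
        (by have : (i : ℝ) ≤ j := by exact_mod_cast hij
            linarith)), rfl⟩
    refine ⟨max m m', le_max_of_le_left hm, fun v hv => ⟨h v fun x hx => ?_, h' v fun x hx => ?_⟩⟩
    · exact mono hm (le_max_left _ _) (hv x hx)
    · exact mono hm' (le_max_right _ _) (hv x hx)
  isOpen_sUnion := by
    rintro 𝒰 h𝒰 k ⟨U, hU, hkU⟩
    obtain ⟨m, hm, h⟩ := h𝒰 U hU k hkU
    exact ⟨m, hm, fun v hv => ⟨U, hU, h v hv⟩⟩

/-- `τ_b`: uniform convergence on the characters `k ↦ k/bₙ + ℤ` (`n ≥ 1`). -/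
def tau (b : ℕ → ℕ) : TopologicalSpace ℤ :=
  tauOn {x | ∃ n : ℕ, 1 ≤ n ∧ x = ((1 / (b n : ℝ) : ℝ) : Circ)}

/-- `s_b = sup {τ_c : c ∈ 𝒟_∞, λ_c = λ_b}` (the coarsest topology finer than all these `τ_c`;
in Mathlib's order on topologies this is an infimum). -/
def sTop (b : ℕ → ℕ) : TopologicalSpace ℤ :=
  ⨅ c : {c : ℕ → ℕ // IsDInf c ∧ lam c = lam b}, tau c.1

/-- `H_b = {k/bₙ + ℤ : k ∈ ℤ, n ≥ 0} ⊆ 𝕋`. -/
def Hset (b : ℕ → ℕ) : Set Circ :=
  {x | ∃ (n : ℕ) (k : ℤ), x = (((k : ℝ) / (b n : ℝ) : ℝ) : Circ)}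

/-- `τ` is the Mackey topology for `(ℤ,H)`: it is a locally quasi-convex group topology on `ℤ`
with character group `H`, and every locally quasi-convex group topology `σ` on `ℤ` with character
group `H` is coarser than `τ`. -/
def IsMackey (τ : TopologicalSpace ℤ) (H : Set Circ) : Prop :=
  IsLQC τ ∧ charSet τ = H ∧ ∀ σ : TopologicalSpace ℤ, IsLQC σ → charSet σ = H → τ ≤ σ

end Pool.Agent.Helper10_Mackey
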