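import Pool.Agent.Helper10_Mackey.SB

set_option autoImplicit false

namespace Pool.Agent.Helper10_Mackey

open Filter Topology

variable {p : ℕ}

def ii (s n : ℕ) : ℕ := 4 * s ^ 3 + n
def jj (s n : ℕ) : ℕ := 4 * s ^ 3 + 4 * (s * n)

def IE : Set ℕ := {f | ∃ s n, 1 ≤ n ∧ n ≤ s ∧ f = ii s n}
def JE : Set ℕ := {f | ∃ s n, 1 ≤ n ∧ n ≤ s ∧ f = jj s n}

def SJ (p : ℕ) : Set Circ := ee p '' JE
def SK (p : ℕ) : Set Circ := {x | ∃ s n, 1 ≤ n ∧ n ≤ s ∧ x = ee p (ii s n) + ee p (jj s n)}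

/-- the regions of the runs -/
def Out : Set ℕ := {e | ∀ s, ¬ (4 * s ^ 3 ≤ e ∧ e ≤ 4 * s ^ 3 + s)}

lemma cube_step {s t : ℕ} (h : s < t) : 4 * s ^ 3 + 12 * (s * s) + 12 * s + 4 ≤ 4 * t ^ 3 := by
  have h1 : (s + 1) ^ 3 ≤ t ^ 3 := Nat.pow_le_pow_left h 3
  have h2 : (s + 1) ^ 3 = s ^ 3 + 3 * (s * s) + 3 * s + 1 := by ring
  omega

lemma cube_mono {s t : ℕ} (h : s ≤ t) : 4 * s ^ 3 ≤ 4 * t ^ 3 := by
  have h1 : s ^ 3 ≤ t ^ 3 := Nat.pow_le_pow_left h 3
  omega

lemma le_cube (s : ℕ) : s ≤ 4 * s ^ 3 := by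
  rcases Nat.eq_zero_or_pos s with h | h
  · simp [h]
  · have : s ^ 1 ≤ s ^ 3 := Nat.pow_le_pow_right h (by norm_num)
    rw [pow_one] at this
    omega

/-- a bound ensuring that the block index is large -/
lemma block_large {s n D : ℕ} (hn : n ≤ s) (h : 4 * D ^ 3 + 4 * (D * D) < jj s n) : D < s := by
  by_contra hc
  push Not at hc
  have h1 := cube_mono hc
  have h2 : s * n ≤ D * D := Nat.mul_le_mul hc (hn.trans hc)
  unfold jj at h
  omega

lemma gaps_JE : Gaps JE := by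
  intro D
  refine ⟨4 * D ^ 3 + 4 * (D * D) + 1, ?_⟩
  rintro _ ⟨s, n, hn1, hn2, rfl⟩ _ ⟨s', n', hn1', hn2', rfl⟩ hf hff
  have hs : D < s := block_large hn2 (by omega)
  have h1 : s * n ≤ s * s := Nat.mul_le_mul le_rfl hn2
  have h1' : s' * n' ≤ s' * s' := Nat.mul_le_mul le_rfl hn2'
  unfold jj at *
  rcases lt_trichotomy s s' with h | h | h
  · have := cube_step h
    omega
  · subst h
    have h2 : n < n' := by
      by_contra hc
      push Not at hc
      have : s * n' ≤ s * n := Nat.mul_le_mul le_rfl hc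
      omega
    have h3 : s * (n + 1) ≤ s * n' := Nat.mul_le_mul le_rfl h2
    rw [mul_add] at h3
    omega
  · have := cube_step h
    omega

/-- existence of holes for `I ∪ J` near exponents outside the run regions -/
lemma hole_out (G : ℕ) : ∃ N : ℕ, ∀ e ∈ Out, N ≤ e →
    ∃ e', e' ≤ e ∧ e ≤ e' + G ∧ ∀ f ∈ IE ∪ JE, ¬ (e' < f ∧ f ≤ e' + G) := by
  refine ⟨4 * (2 * G) ^ 3 + 4 * ((2 * G) * (2 * G)) + G + 2 * G + 1, fun e he hNe => ?_⟩
  by_cases hc : ∀ f ∈ IE ∪ JE, ¬ (e < f ∧ f ≤ e + G)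
  · exact ⟨e, le_rfl, by omega, hc⟩
  · push Not at hc
    obtain ⟨f0, hf0, h1, h2⟩ := hc
    refine ⟨e - G, by omega, by omega, ?_⟩
    rintro f1 hf1 ⟨h3, h4⟩
    have h5 : f1 ≤ e := by omega
    -- block index of f1
    have key : ∃ s1 n1, 1 ≤ n1 ∧ n1 ≤ s1 ∧ 2 * G < s1 ∧ (f1 = ii s1 n1 ∨ f1 = jj s1 n1) := by
      rcases hf1 with ⟨s, n, hn1, hn2, rfl⟩ | ⟨s, n, hn1, hn2, rfl⟩
      · refine ⟨s, n, hn1, hn2, ?_, Or.inl rfl⟩
        by_contra hcon
        push Not at hcon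
        have h6 := cube_mono hcon
        unfold ii at *
        omega
      · exact ⟨s, n, hn1, hn2, block_large hn2 (by omega), Or.inr rfl⟩
    obtain ⟨s1, n1, hn1, hn1', hs1, hf1'⟩ := key
    have hsn1 : s1 * n1 ≤ s1 * s1 := Nat.mul_le_mul le_rfl hn1'
    have hsn1' : s1 * 1 ≤ s1 * n1 := Nat.mul_le_mul le_rfl hn1
    have key0 : ∃ s0 n0, 1 ≤ n0 ∧ n0 ≤ s0 ∧ (f0 = ii s0 n0 ∨ f0 = jj s0 n0) := by
      rcases hf0 with ⟨s, n, hn1, hn2, rfl⟩ | ⟨s, n, hn1, hn2, rfl⟩
      · exact ⟨s, n, hn1, hn2, Or.inl rfl⟩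
      · exact ⟨s, n, hn1, hn2, Or.inr rfl⟩
    obtain ⟨s0, n0, hn0, hn0', hf0'⟩ := key0
    have hsn0 : s0 * n0 ≤ s0 * s0 := Nat.mul_le_mul le_rfl hn0'
    have hsn0' : s0 * 1 ≤ s0 * n0 := Nat.mul_le_mul le_rfl hn0
    unfold ii jj at *
    rcases lt_trichotomy s1 s0 with h | h | h
    · have := cube_step h
      have h7 : 1 * s1 ≤ s1 * s1 := Nat.mul_le_mul (by omega) le_rfl
      rcases hf1' with h8 | h8 <;> rcases hf0' with h9 | h9 <;> omega
    · subst h
      rcases hf1' with h8 | h8 <;> rcases hf0' with h9 | h9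
      · have := he s1
        omega
      · omega
      · omega
      · have h2 : n1 < n0 := by
          by_contra hc
          push Not at hc
          have : s1 * n0 ≤ s1 * n1 := Nat.mul_le_mul le_rfl hc
          omega
        have h3 : s1 * (n1 + 1) ≤ s1 * n0 := Nat.mul_le_mul le_rfl h2
        rw [mul_add] at h3
        omega
    · have := cube_step h
      rcases hf1' with h8 | h8 <;> rcases hf0' with h9 | h9 <;> omega

lemma inv_pow_anti (hp : 2 ≤ p) {a b : ℕ} (h : a ≤ b) : (1 / (p : ℝ)) ^ b ≤ (1 / (p : ℝ)) ^ a := by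
  refine pow_le_pow_of_le_one (by positivity) ?_ h
  rw [div_le_one (by positivity)]
  exact_mod_cast (by omega : 1 ≤ p)

/-- the auxiliary integers -/
def kk (p G s n : ℕ) : ℤ :=
  (p : ℤ) ^ (4 * s ^ 3 + n) - ∑ q ∈ Finset.Ioc n (min (n + G) s), (p : ℤ) ^ (jj s q - (q - n))

lemma card_Q (n G s : ℕ) : (Finset.Ioc n (min (n + G) s)).card ≤ G := by
  rw [Nat.card_Ioc]; omega

lemma norm_kk (hp : 2 ≤ p) {G s n : ℕ} (hn : n ≤ s) (hs : 1 ≤ s) {s' q' : ℕ} (hq1 : 1 ≤ q')
    (hq2 : q' ≤ s') :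
    ‖kk p G s n • (ee p (ii s' q') + ee p (jj s' q'))‖ ≤
      (1 / (p : ℝ)) ^ G + 2 * ((G : ℝ) + 1) * (1 / (p : ℝ)) ^ (3 * s) := by
  have hp0 : 0 < p := by omega
  set Q := Finset.Ioc n (min (n + G) s) with hQ
  set δ : ℝ := (1 / (p : ℝ)) ^ (3 * s) with hδ
  have hδ0 : 0 ≤ δ := by positivity
  have hG0 : 0 ≤ (1 / (p : ℝ)) ^ G := by positivity
  have hcard : (Q.card : ℝ) ≤ G := by exact_mod_cast card_Q n G s
  have hexp : ∀ z : Circ, kk p G s n • z = ((p : ℤ) ^ (4 * s ^ 3 + n)) • z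
      - ∑ q ∈ Q, ((p : ℤ) ^ (jj s q - (q - n))) • z := by
    intro z
    unfold kk
    rw [sub_smul, Finset.sum_smul]
  have hsq' : s' * q' ≤ s' * s' := Nat.mul_le_mul le_rfl hq2
  have hsq1' : s' * 1 ≤ s' * q' := Nat.mul_le_mul le_rfl hq1
  have hss : s * 1 ≤ s * s := Nat.mul_le_mul le_rfl hs
  have hQm : ∀ q ∈ Q, n < q ∧ q ≤ n + G ∧ q ≤ s ∧ s * 1 ≤ s * q ∧ s * q ≤ s * s ∧
      1 * q ≤ s * q := by
    intro q hq
    rw [hQ, Finset.mem_Ioc] at hq
    have hqs : q ≤ s := by omega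
    exact ⟨by omega, by omega, hqs, Nat.mul_le_mul le_rfl (by omega),
      Nat.mul_le_mul le_rfl hqs, Nat.mul_le_mul hs le_rfl⟩
  rcases lt_trichotomy s' s with h | h | h
  · -- lower blocks
    have hc := cube_step h
    have hz : ∀ E, 4 * s ^ 3 ≤ E →
        ((p : ℤ) ^ E) • (ee p (ii s' q') + ee p (jj s' q')) = 0 := by
      intro E hE
      rw [smul_add, pow_smul_ee_of_le hp0, pow_smul_ee_of_le hp0, add_zero]
      · unfold jj; omega
      · unfold ii; omega
    rw [hexp, hz _ (by omega), Finset.sum_eq_zero, sub_zero, norm_zero]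
    · positivity
    · intro q hq
      have := hQm q hq
      apply hz
      unfold jj; omega
  · -- the same block
    subst h
    have h1 : kk p G s' n • (ee p (ii s' q') + ee p (jj s' q')) =
        (((p : ℤ) ^ (4 * s' ^ 3 + n)) • ee p (ii s' q') -
          (if q' ∈ Q then ee p (q' - n) else 0)) +
        ((p : ℤ) ^ (4 * s' ^ 3 + n)) • ee p (jj s' q') -
        ∑ q ∈ Q, (if q = q' then 0 else ((p : ℤ) ^ (jj s' q - (q - n))) • ee p (jj s' q')) := by
      rw [smul_add, hexp, hexp]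
      have h2 : ∑ q ∈ Q, ((p : ℤ) ^ (jj s' q - (q - n))) • ee p (ii s' q') = 0 := by
        refine Finset.sum_eq_zero fun q hq => ?_
        have := hQm q hq
        apply pow_smul_ee_of_le hp0
        unfold ii jj
        omega
      have h3 : ∑ q ∈ Q, ((p : ℤ) ^ (jj s' q - (q - n))) • ee p (jj s' q') =
          (if q' ∈ Q then ee p (q' - n) else 0) +
          ∑ q ∈ Q, (if q = q' then 0 else ((p : ℤ) ^ (jj s' q - (q - n))) • ee p (jj s' q')) := by
        have h4 : (if q' ∈ Q then ee p (q' - n) else 0) =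
            ∑ q ∈ Q, (if q = q' then ee p (q' - n) else 0) := by
          rw [Finset.sum_ite_eq' Q q']
        rw [h4, ← Finset.sum_add_distrib]
        refine Finset.sum_congr rfl fun q hq => ?_
        by_cases hqq : q = q'
        · subst hqq
          rw [if_pos rfl, if_pos rfl, add_zero]
          have := hQm q hq
          rw [pow_smul_ee_of_ge hp0 (by omega)]
          congr 1
          unfold jj
          omega
        · rw [if_neg hqq, if_neg hqq, zero_add]
      rw [h2, h3]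
      abel
    rw [h1]
    have h5 : ‖((p : ℤ) ^ (4 * s' ^ 3 + n)) • ee p (ii s' q') -
        (if q' ∈ Q then ee p (q' - n) else 0)‖ ≤ (1 / (p : ℝ)) ^ G := by
      by_cases hq : q' ∈ Q
      · rw [if_pos hq]
        have := hQm q' hq
        rw [pow_smul_ee_of_ge hp0 (by unfold ii; omega)]
        have h6 : ii s' q' - (4 * s' ^ 3 + n) = q' - n := by unfold ii; omega
        rw [h6, sub_self, norm_zero]
        exact hG0
      · rw [if_neg hq, sub_zero]
        by_cases hqn : q' ≤ n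
        · rw [pow_smul_ee_of_le hp0 (by unfold ii; omega), norm_zero]
          exact hG0
        · refine (norm_pow_smul_ee_le hp0 _ _).trans (inv_pow_anti hp ?_)
          rw [hQ, Finset.mem_Ioc] at hq
          unfold ii
          omega
    have h6 : ‖((p : ℤ) ^ (4 * s' ^ 3 + n)) • ee p (jj s' q')‖ ≤ δ := by
      refine (norm_pow_smul_ee_le hp0 _ _).trans (inv_pow_anti hp ?_)
      unfold jj
      omega
    have h7 : ‖∑ q ∈ Q, (if q = q' then 0 else
        ((p : ℤ) ^ (jj s' q - (q - n))) • ee p (jj s' q'))‖ ≤ G * δ := by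
      refine (norm_sum_le _ _).trans ?_
      have h8 : ∀ q ∈ Q, ‖(if q = q' then 0 else
        ((p : ℤ) ^ (jj s' q - (q - n))) • ee p (jj s' q'))‖ ≤ δ := by
        intro q hq
        have h9 := hQm q hq
        split_ifs with hqq
        · rw [norm_zero]; exact hδ0
        · rcases Nat.lt_or_gt_of_ne hqq with h10 | h10
          · have h11 : s' * (q + 1) ≤ s' * q' := Nat.mul_le_mul le_rfl h10
            rw [mul_add] at h11
            refine (norm_pow_smul_ee_le hp0 _ _).trans (inv_pow_anti hp ?_)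
            unfold jj
            omega
          · have h11 : s' * (q' + 1) ≤ s' * q := Nat.mul_le_mul le_rfl h10
            rw [mul_add] at h11
            rw [pow_smul_ee_of_le hp0 (by unfold jj; omega), norm_zero]
            exact hδ0
      refine (Finset.sum_le_sum h8).trans ?_
      rw [Finset.sum_const, nsmul_eq_mul]
      gcongr
    refine (norm_sub_le _ _).trans ?_
    have h8 := norm_add_le (((p : ℤ) ^ (4 * s' ^ 3 + n)) • ee p (ii s' q') -
          (if q' ∈ Q then ee p (q' - n) else 0)) (((p : ℤ) ^ (4 * s' ^ 3 + n)) • ee p (jj s' q'))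
    have h9 : (0 : ℝ) ≤ G * δ := by positivity
    nlinarith
  · -- higher blocks
    have hc := cube_step h
    have hz : ∀ E, E ≤ 4 * s ^ 3 + 4 * (s * s) →
        ‖((p : ℤ) ^ E) • (ee p (ii s' q') + ee p (jj s' q'))‖ ≤ 2 * δ := by
      intro E hE
      rw [smul_add]
      refine (norm_add_le _ _).trans ?_
      have h1 : ‖((p : ℤ) ^ E) • ee p (ii s' q')‖ ≤ δ := by
        refine (norm_pow_smul_ee_le hp0 _ _).trans (inv_pow_anti hp ?_)
        unfold ii; omega
      have h2 : ‖((p : ℤ) ^ E) • ee p (jj s' q')‖ ≤ δ := by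
        refine (norm_pow_smul_ee_le hp0 _ _).trans (inv_pow_anti hp ?_)
        unfold jj; omega
      linarith
    rw [hexp]
    refine (norm_sub_le _ _).trans ?_
    have h1 := hz (4 * s ^ 3 + n) (by omega)
    have h2 : ‖∑ q ∈ Q, ((p : ℤ) ^ (jj s q - (q - n))) • (ee p (ii s' q') + ee p (jj s' q'))‖ ≤
        G * (2 * δ) := by
      refine (norm_sum_le _ _).trans ?_
      refine (Finset.sum_le_sum (g := fun _ => 2 * δ) fun q hq => hz _ ?_).trans ?_
      · have := hQm q hq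
        unfold jj
        omega
      · rw [Finset.sum_const, nsmul_eq_mul]
        gcongr
    nlinarith

lemma mem_Hset_of_K (hp : 2 ≤ p) {x : Circ} (hx : x ∈ charSet (tauOn (SK p))) :
    x ∈ Hset (fun n => p ^ n) := by
  have hp0 : 0 < p := by omega
  obtain ⟨m, hm, h⟩ := (mem_charSet_tauOn_iff _ x).mp hx
  have hm0 : (0 : ℝ) < m := by exact_mod_cast hm
  -- outside the run regions
  have out : ∀ δ : ℝ, 0 < δ → ∃ N : ℕ, ∀ e ∈ Out, N ≤ e → ‖((p : ℤ) ^ e) • x‖ < δ := by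
    intro δ hδ
    obtain ⟨G, hG⟩ := exists_pow_bound hp (show (0 : ℝ) < 1 / (8 * (m : ℝ)) by positivity)
    have hsum := sums_of_nhd (p := p) (x := x) (F := IE ∪ JE) (G := G)
      (W := Vset (SK p) m) (fun v hv => h v hv) ?_
    · obtain ⟨N, hN⟩ := hole_out G
      exact all_of_hole (p := p) (x := x) (F := IE ∪ JE) (G := G) (L := G) (N := N)
        Out (fun e he h => hN e he h) hp0 hsum hδ
    · rintro A ε hε hA y ⟨s, n, hn1, hn2, rfl⟩
      rw [mem_Tm hm, smul_add]
      have h1 := hole_sum hp A hA ε hε (f := ii s n) (Or.inl ⟨s, n, hn1, hn2, rfl⟩)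
      have h2 := hole_sum hp A hA ε hε (f := jj s n) (Or.inr ⟨s, n, hn1, hn2, rfl⟩)
      refine (norm_add_le _ _).trans ?_
      have h3 : 1 / (4 * (m : ℝ)) = 1 / (8 * (m : ℝ)) + 1 / (8 * (m : ℝ)) := by
        field_simp; norm_num
      rw [h3]
      linarith
  -- inside the run regions
  have inn : ∀ δ : ℝ, 0 < δ → ∃ N : ℕ, ∀ s n, N ≤ s → n ≤ s →
      ‖((p : ℤ) ^ (4 * s ^ 3 + n)) • x‖ < δ := by
    intro δ hδ
    obtain ⟨T, hT⟩ := exists_nat_gt (1 / (2 * δ))
    have hT0 : (0 : ℝ) < T := lt_of_le_of_lt (by positivity) hT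
    obtain ⟨G, hG⟩ := exists_pow_bound hp (show (0 : ℝ) < 1 / (8 * (m : ℝ) * T) by positivity)
    obtain ⟨s0, hs0⟩ := exists_pow_bound hp
      (show (0 : ℝ) < 1 / (16 * (m : ℝ) * T * ((G : ℝ) + 1)) by positivity)
    obtain ⟨N, hN⟩ := out (δ / (2 * ((G : ℝ) + 1))) (by positivity)
    refine ⟨s0 + N + G + 1, fun s n hs hn => ?_⟩
    have hmul : (T : ℝ) * ‖kk p G s n • x‖ ≤ 1 / 4 := by
      refine multiples fun j hj1 hj2 => ?_
      rw [smul_smul]
      apply h
      rintro y ⟨s', q', hq1, hq2, rfl⟩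
      rw [mem_Tm hm, mul_smul]
      have h1 := norm_zsmul_le' (j : ℤ) (kk p G s n • (ee p (ii s' q') + ee p (jj s' q')))
      have h2 := norm_kk hp (G := G) hn (by omega) hq1 hq2
      have h3 : (1 / (p : ℝ)) ^ (3 * s) ≤ 1 / (16 * (m : ℝ) * T * ((G : ℝ) + 1)) :=
        (inv_pow_anti hp (by omega)).trans hs0
      have h4 : 2 * ((G : ℝ) + 1) * (1 / (p : ℝ)) ^ (3 * s) ≤ 1 / (8 * (m : ℝ) * T) := by
        calc 2 * ((G : ℝ) + 1) * (1 / (p : ℝ)) ^ (3 * s)
            ≤ 2 * ((G : ℝ) + 1) * (1 / (16 * (m : ℝ) * T * ((G : ℝ) + 1))) := by gcongr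
          _ = 1 / (8 * (m : ℝ) * T) := by
            have : (G : ℝ) + 1 ≠ 0 := by positivity
            field_simp
            norm_num
      have h5 : ‖kk p G s n • (ee p (ii s' q') + ee p (jj s' q'))‖ ≤ 1 / (4 * (m : ℝ) * T) := by
        have : 1 / (4 * (m : ℝ) * T) = 1 / (8 * (m : ℝ) * T) + 1 / (8 * (m : ℝ) * T) := by
          field_simp; norm_num
        rw [this]
        linarith
      have h6 : |((j : ℤ) : ℝ)| ≤ T := by
        rw [abs_of_nonneg (by positivity)]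
        exact_mod_cast hj2
      calc _ ≤ _ := h1
        _ ≤ (T : ℝ) * (1 / (4 * (m : ℝ) * T)) := by gcongr
        _ = 1 / (4 * (m : ℝ)) := by field_simp
    have hk : ‖kk p G s n • x‖ < δ / 2 := by
      have h1 : ‖kk p G s n • x‖ ≤ 1 / 4 / T := by
        rw [le_div_iff₀ hT0]; linarith
      refine lt_of_le_of_lt h1 ?_
      rw [div_lt_iff₀ hT0]
      rw [div_lt_iff₀ (by positivity)] at hT
      linarith
    have hexp : ((p : ℤ) ^ (4 * s ^ 3 + n)) • x = kk p G s n • x +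
        ∑ q ∈ Finset.Ioc n (min (n + G) s), ((p : ℤ) ^ (jj s q - (q - n))) • x := by
      unfold kk
      rw [sub_smul, Finset.sum_smul]
      abel
    have hsum : ‖∑ q ∈ Finset.Ioc n (min (n + G) s), ((p : ℤ) ^ (jj s q - (q - n))) • x‖ ≤
        G * (δ / (2 * ((G : ℝ) + 1))) := by
      refine (norm_sum_le _ _).trans ?_
      refine (Finset.sum_le_sum (g := fun _ => δ / (2 * ((G : ℝ) + 1))) fun q hq =>
        (hN _ ?_ ?_).le).trans ?_
      · -- membership in Out
        rw [Finset.mem_Ioc] at hq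
        intro t
        have h1 : s * 1 ≤ s * q := Nat.mul_le_mul le_rfl (by omega)
        have h2 : s * q ≤ s * s := Nat.mul_le_mul le_rfl (by omega)
        unfold jj
        rcases lt_trichotomy t s with h3 | h3 | h3
        · have := cube_step h3
          omega
        · subst h3
          omega
        · have := cube_step h3
          omega
      · rw [Finset.mem_Ioc] at hq
        have h1 : s * 1 ≤ s * q := Nat.mul_le_mul le_rfl (by omega)
        have h2 := le_cube s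
        unfold jj
        omega
      · rw [Finset.sum_const, nsmul_eq_mul]
        have : ((Finset.Ioc n (min (n + G) s)).card : ℝ) ≤ G := by exact_mod_cast card_Q n G s
        gcongr
    have hfin : G * (δ / (2 * ((G : ℝ) + 1))) ≤ δ / 2 := by
      rw [mul_div_assoc', div_le_div_iff₀ (by positivity) (by norm_num)]
      nlinarith
    rw [hexp]
    refine lt_of_le_of_lt (norm_add_le _ _) ?_
    linarith
  rw [mem_Hset_iff]
  refine end_lemma hp fun δ hδ => ?_
  obtain ⟨N1, h1⟩ := out δ hδ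
  obtain ⟨N2, h2⟩ := inn δ hδ
  refine ⟨N1 + (4 * N2 ^ 3 + N2), fun e he => ?_⟩
  by_cases hO : e ∈ Out
  · exact h1 e hO (by omega)
  · unfold Out at hO
    simp only [Set.mem_ofPred_eq, not_forall, not_not] at hO
    obtain ⟨s, hs1, hs2⟩ := hO
    have hsN : N2 ≤ s := by
      by_contra hc
      push Not at hc
      have := cube_step hc
      omega
    have := h2 s (e - 4 * s ^ 3) hsN (by omega)
    have h3 : 4 * s ^ 3 + (e - 4 * s ^ 3) = e := by omega
    rwa [h3] at this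

lemma K_generates (hp : p.Prime) (N : ℕ) : ∃ y ∈ SK p, ∃ j : ℤ, ee p N = j • y := by
  have hp2 := hp.two_le
  set s := N + 1 with hs
  set i := ii s 1 with hi
  set j := jj s 1 with hj
  have hij : i ≤ j := by rw [hi, hj]; unfold ii jj; omega
  have hij' : 0 < j - i := by rw [hi, hj]; unfold ii jj; omega
  have hNj : N ≤ j := by
    rw [hj]; unfold jj
    omega
  have hcop : IsCoprime ((p : ℤ) ^ (j - i) + 1) ((p : ℤ) ^ j) := by
    apply IsCoprime.pow_right
    refine ⟨1, -(p : ℤ) ^ (j - i - 1), ?_⟩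
    have : (p : ℤ) ^ (j - i) = (p : ℤ) ^ (j - i - 1) * p := by
      rw [← pow_succ]; congr 1; omega
    rw [this]; ring
  obtain ⟨u, w, huw⟩ := hcop
  refine ⟨ee p i + ee p j, ⟨s, 1, le_rfl, by omega, rfl⟩, (p : ℤ) ^ (j - N) * u, ?_⟩
  have h1 : ee p i + ee p j = ((p : ℤ) ^ (j - i) + 1) • ee p j := by
    rw [add_smul, one_smul, pow_smul_ee_of_ge hp.pos (by omega)]
    congr 2; omega
  have h2 : u • (ee p i + ee p j) = ee p j := by
    rw [h1, smul_smul]
    have : u * ((p : ℤ) ^ (j - i) + 1) = 1 - w * (p : ℤ) ^ j := by linarith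
    rw [this, sub_smul, mul_smul, pow_smul_ee_of_le hp.pos le_rfl, smul_zero, one_smul, sub_zero]
  rw [mul_smul, h2]
  exact ee_of_le hp2 hNj

lemma J_generates (hp : 2 ≤ p) (N : ℕ) : ∃ y ∈ SJ p, ∃ j : ℤ, ee p N = j • y := by
  refine ⟨ee p (jj (N + 1) 1), ⟨jj (N + 1) 1, ⟨N + 1, 1, le_rfl, by omega, rfl⟩, rfl⟩,
    (p : ℤ) ^ (jj (N + 1) 1 - N), ee_of_le hp ?_⟩
  unfold jj
  omega

theorem J_compatible (hp : p.Prime) : charSet (tauOn (SJ p)) = Hset (fun n => p ^ n) := by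
  rw [tauOn_eq_iInf]
  apply Set.Subset.antisymm
  · intro x hx
    refine mem_Hset_of_hole hp.two_le (fun _ : Unit => JE) (fun I => ?_) hx
    exact hole_biUnion _ (fun _ => gaps_JE) I
  · refine Hset_subset_charSet hp.two_le _ fun N => ⟨(), J_generates hp.two_le N⟩

theorem K_compatible (hp : p.Prime) : charSet (tauOn (SK p)) = Hset (fun n => p ^ n) := by
  apply Set.Subset.antisymm
  · intro x hx
    exact mem_Hset_of_K hp.two_le hx
  · rw [tauOn_eq_iInf]
    exact Hset_subset_charSet hp.two_le _ fun N => ⟨(), K_generates hp N⟩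

end Pool.Agent.Helper10_Mackey
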