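import Pool.Agent.Helper10_Mackey.Topo

set_option autoImplicit false

namespace Pool.Agent.Helper10_Mackey

open Filter Topology

/-- the point `p^{-f} + ℤ` of the circle -/
noncomputable def ee (p f : ℕ) : Circ := ((1 / (p : ℝ) ^ f : ℝ) : Circ)

/-- the hole property of a set `F` of exponents -/
def Hole (F : Set ℕ) : Prop :=
  ∀ G : ℕ, ∃ L N : ℕ, ∀ e, N ≤ e → ∃ e', e' ≤ e ∧ e ≤ e' + L ∧ ∀ f ∈ F, ¬ (e' < f ∧ f ≤ e' + G)

/-- gaps of the set `E` tend to infinity -/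
def Gaps (E : Set ℕ) : Prop :=
  ∀ D : ℕ, ∃ N : ℕ, ∀ f ∈ E, ∀ f' ∈ E, N ≤ f → f < f' → f + D < f'

lemma hole_empty : Hole ∅ := fun _ => ⟨0, 0, fun e _ => ⟨e, le_rfl, le_rfl, by simp⟩⟩

lemma hole_union {F E : Set ℕ} (hF : Hole F) (hE : Gaps E) : Hole (F ∪ E) := by
  intro G
  obtain ⟨L, N, h⟩ := hF (2 * G)
  obtain ⟨N', hN'⟩ := hE (2 * G)
  refine ⟨L + G, N + N' + L + G, fun e he => ?_⟩
  obtain ⟨e', he'1, he'2, he'3⟩ := h (e - G) (by omega)
  by_cases hc : ∀ f ∈ E, ¬ (e' < f ∧ f ≤ e' + G)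
  · refine ⟨e', by omega, by omega, ?_⟩
    rintro f (hf | hf)
    · have := he'3 f hf; omega
    · exact hc f hf
  · push Not at hc
    obtain ⟨f0, hf0, h1, h2⟩ := hc
    refine ⟨e' + G, by omega, by omega, ?_⟩
    rintro f (hf | hf)
    · have := he'3 f hf; omega
    · rintro ⟨h3, h4⟩
      have := hN' f0 hf0 f hf (by omega) (by omega)
      omega

lemma hole_of_gaps {E : Set ℕ} (hE : Gaps E) : Hole E := by
  have := hole_union hole_empty hE
  simpa using this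

lemma hole_biUnion {ι : Type*} (F : ι → Set ℕ) (hF : ∀ i, Gaps (F i)) (I : Finset ι) :
    Hole (⋃ i ∈ I, F i) := by
  classical
  induction I using Finset.induction_on with
  | empty => simpa using hole_empty
  | insert a J ha ih =>
    rw [Finset.set_biUnion_insert, Set.union_comm]
    exact hole_union ih (hF a)

section P

variable {p : ℕ}

lemma zsmul_coe (k : ℤ) (t : ℝ) : k • (t : Circ) = (((k : ℝ) * t : ℝ) : Circ) := by
  rw [← AddCircle.coe_zsmul]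
  simp

lemma coe_int (k : ℤ) : (((k : ℝ)) : Circ) = 0 := by
  rw [AddCircle.coe_eq_zero_iff]
  exact ⟨k, by simp⟩

lemma pow_smul_ee_of_le (hp : 0 < p) {e f : ℕ} (h : f ≤ e) : ((p : ℤ) ^ e) • ee p f = 0 := by
  unfold ee
  rw [zsmul_coe]
  have : (((p : ℤ) ^ e : ℤ) : ℝ) * (1 / (p : ℝ) ^ f) = (((p : ℤ) ^ (e - f) : ℤ) : ℝ) := by
    have hp' : (p : ℝ) ≠ 0 := by positivity
    push_cast
    rw [mul_one_div, div_eq_iff (by positivity), ← pow_add]
    congr 1; omega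
  rw [this, coe_int]

lemma pow_smul_ee_of_ge (hp : 0 < p) {e f : ℕ} (h : e ≤ f) :
    ((p : ℤ) ^ e) • ee p f = ee p (f - e) := by
  unfold ee
  rw [zsmul_coe]
  congr 1
  have hp' : (p : ℝ) ≠ 0 := by positivity
  have : (p : ℝ) ^ f = (p : ℝ) ^ e * (p : ℝ) ^ (f - e) := by
    rw [← pow_add]; congr 1; omega
  push_cast
  rw [this]
  field_simp

lemma norm_ee_le (f : ℕ) : ‖ee p f‖ ≤ (1 / (p : ℝ)) ^ f := by
  unfold ee
  refine (norm_coe_le _).trans ?_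
  rw [abs_of_nonneg (by positivity), one_div_pow]

lemma norm_pow_smul_ee_le (hp : 0 < p) (e f : ℕ) :
    ‖((p : ℤ) ^ e) • ee p f‖ ≤ (1 / (p : ℝ)) ^ (f - e) := by
  rcases le_total f e with h | h
  · rw [pow_smul_ee_of_le hp h, norm_zero]; positivity
  · rw [pow_smul_ee_of_ge hp h]; exact norm_ee_le _

lemma geom_aux (hp : 2 ≤ p) (G n : ℕ) :
    ∑ e ∈ Finset.range n, (1 / (p : ℝ)) ^ (n + G - e) ≤ (1 / (p : ℝ)) ^ G := by
  have hp0 : (0 : ℝ) < p := by positivity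
  have h2 : 1 / (p : ℝ) ≤ 1 / 2 := by
    apply one_div_le_one_div_of_le (by norm_num)
    exact_mod_cast hp
  induction n with
  | zero => simp
  | succ n ih =>
    rw [Finset.sum_range_succ]
    have h1 : ∑ e ∈ Finset.range n, (1 / (p : ℝ)) ^ (n + 1 + G - e) =
        (1 / (p : ℝ)) * ∑ e ∈ Finset.range n, (1 / (p : ℝ)) ^ (n + G - e) := by
      rw [Finset.mul_sum]
      refine Finset.sum_congr rfl fun e he => ?_
      rw [← pow_succ']
      congr 1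
      have := Finset.mem_range.mp he
      omega
    have h3 : n + 1 + G - n = G + 1 := by omega
    rw [h1, h3, pow_succ']
    have h4 : (0 : ℝ) ≤ (1 / (p : ℝ)) ^ G := by positivity
    have h5 : 1 / (p : ℝ) * ∑ e ∈ Finset.range n, (1 / (p : ℝ)) ^ (n + G - e) ≤
        1 / (p : ℝ) * (1 / (p : ℝ)) ^ G := by gcongr
    nlinarith

lemma hole_sum (hp : 2 ≤ p) {F : Set ℕ} {G : ℕ} (A : Finset ℕ)
    (hA : ∀ e ∈ A, ∀ f ∈ F, ¬ (e < f ∧ f ≤ e + G)) (ε : ℕ → ℤ) (hε : ∀ e, ε e = 1 ∨ ε e = -1)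
    {f : ℕ} (hf : f ∈ F) :
    ‖(∑ e ∈ A, ε e * (p : ℤ) ^ e) • ee p f‖ ≤ (1 / (p : ℝ)) ^ G := by
  have hp0 : 0 < p := by omega
  have h1 : (∑ e ∈ A, ε e * (p : ℤ) ^ e) • ee p f = ∑ e ∈ A, ε e • ((p : ℤ) ^ e) • ee p f := by
    rw [Finset.sum_smul]
    refine Finset.sum_congr rfl fun e _ => ?_
    rw [mul_smul]
  have h2 : ∀ e ∈ A, ‖ε e • ((p : ℤ) ^ e) • ee p f‖ ≤
      if e < f - G then (1 / (p : ℝ)) ^ (f - e) else 0 := by
    intro e he
    have h3 : ‖ε e • ((p : ℤ) ^ e) • ee p f‖ = ‖((p : ℤ) ^ e) • ee p f‖ := by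
      rcases hε e with h | h
      · rw [h, one_smul]
      · rw [h, neg_smul, one_smul, norm_neg]
    rw [h3]
    split_ifs with hc
    · exact norm_pow_smul_ee_le hp0 e f
    · have := hA e he f hf
      rw [pow_smul_ee_of_le hp0 (by omega), norm_zero]
  rw [h1]
  refine (norm_sum_le _ _).trans ((Finset.sum_le_sum h2).trans ?_)
  rw [← Finset.sum_filter]
  rcases Nat.lt_or_ge f G with hfG | hfG
  · have : A.filter (fun e => e < f - G) = ∅ := by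
      ext e; simp; intro _; omega
    rw [this, Finset.sum_empty]; positivity
  · have h4 := geom_aux hp G (f - G)
    have h5 : f - G + G = f := by omega
    rw [h5] at h4
    refine le_trans (Finset.sum_le_sum_of_subset_of_nonneg ?_ fun _ _ _ => by positivity) h4
    intro e he
    simp only [Finset.mem_filter] at he
    exact Finset.mem_range.mpr he.2

/-- if all finite sums of `‖p^e x‖` over a set of exponents are bounded, they tend to zero -/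
lemma zero_along {x : Circ} {H : Set ℕ}
    (h : ∀ A : Finset ℕ, (∀ e ∈ A, e ∈ H) → ∑ e ∈ A, ‖((p : ℤ) ^ e) • x‖ ≤ 1 / 4)
    {δ : ℝ} (hδ : 0 < δ) : ∃ N : ℕ, ∀ e ∈ H, N ≤ e → ‖((p : ℤ) ^ e) • x‖ < δ := by
  classical
  have hs : Summable fun e : ℕ => if e ∈ H then ‖((p : ℤ) ^ e) • x‖ else 0 := by
    refine summable_of_sum_le (c := 1 / 4) (fun e => ?_) fun A => ?_
    · split_ifs
      · positivity
      · exact le_rfl
    · rw [← Finset.sum_filter]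
      exact h _ fun e he => (Finset.mem_filter.mp he).2
  have ht := hs.tendsto_atTop_zero
  obtain ⟨N, hN⟩ := (ht.eventually (gt_mem_nhds hδ)).exists_forall_of_atTop
  refine ⟨N, fun e he hNe => ?_⟩
  have := hN e hNe
  simpa [he] using this

/-- `‖p x‖ = p ‖x‖` when `‖x‖` is small -/
lemma norm_p_smul {x : Circ} (hx : (p : ℝ) * ‖x‖ ≤ 1 / 2) : ‖(p : ℤ) • x‖ = p * ‖x‖ := by
  obtain ⟨t, ht, rfl⟩ := exists_rep x
  rw [zsmul_coe, norm_coe_eq, abs_mul, ht]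
  · simp
  · rw [abs_mul, ht]
    simpa using hx

lemma end_lemma (hp : 2 ≤ p) {x : Circ}
    (h : ∀ δ : ℝ, 0 < δ → ∃ N : ℕ, ∀ e, N ≤ e → ‖((p : ℤ) ^ e) • x‖ < δ) :
    ∃ (N : ℕ) (k : ℤ), x = (((k : ℝ) / ((p ^ N : ℕ) : ℝ) : ℝ) : Circ) := by
  have hp0 : (0 : ℝ) < p := by positivity
  obtain ⟨N, hN⟩ := h (1 / (2 * p)) (by positivity)
  have h1 : ∀ j : ℕ, ‖((p : ℤ) ^ (N + j)) • x‖ = (p : ℝ) ^ j * ‖((p : ℤ) ^ N) • x‖ := by
    intro j
    induction j with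
    | zero => simp
    | succ j ih =>
      have h2 : ((p : ℤ) ^ (N + (j + 1))) • x = (p : ℤ) • ((p : ℤ) ^ (N + j)) • x := by
        rw [smul_smul, ← pow_succ']; rfl
      rw [h2, norm_p_smul, ih, pow_succ']
      · ring
      · have := hN (N + j) (by omega)
        rw [lt_div_iff₀ (by positivity)] at this
        linarith
  have h2 : ‖((p : ℤ) ^ N) • x‖ = 0 := by
    by_contra hne
    have hpos : 0 < ‖((p : ℤ) ^ N) • x‖ := lt_of_le_of_ne (norm_nonneg _) (Ne.symm hne)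
    obtain ⟨j, hj⟩ := pow_unbounded_of_one_lt (1 / ‖((p : ℤ) ^ N) • x‖)
      (show (1 : ℝ) < p by exact_mod_cast hp)
    have h3 := norm_le_half (((p : ℤ) ^ (N + j)) • x)
    rw [h1 j] at h3
    rw [div_lt_iff₀ hpos] at hj
    linarith
  obtain ⟨t, -, rfl⟩ := exists_rep x
  rw [norm_eq_zero, zsmul_coe, AddCircle.coe_eq_zero_iff] at h2
  obtain ⟨k, hk⟩ := h2
  refine ⟨N, k, ?_⟩
  congr 1
  have : ((p ^ N : ℕ) : ℝ) ≠ 0 := by positivity
  rw [eq_div_iff this]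
  simp only [zsmul_eq_mul, mul_one, Int.cast_pow, Int.cast_natCast] at hk
  push_cast
  rw [hk]; ring

/-- from zero convergence along the hole set to convergence along all exponents -/
lemma all_of_hole {x : Circ} {F : Set ℕ} {G L N : ℕ} (e₀ : Set ℕ)
    (hole : ∀ e ∈ e₀, N ≤ e → ∃ e', e' ≤ e ∧ e ≤ e' + L ∧ ∀ f ∈ F, ¬ (e' < f ∧ f ≤ e' + G))
    (hp : 0 < p)
    (h : ∀ A : Finset ℕ, (∀ e ∈ A, ∀ f ∈ F, ¬ (e < f ∧ f ≤ e + G)) →
      ∑ e ∈ A, ‖((p : ℤ) ^ e) • x‖ ≤ 1 / 4)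
    {δ : ℝ} (hδ : 0 < δ) : ∃ N : ℕ, ∀ e ∈ e₀, N ≤ e → ‖((p : ℤ) ^ e) • x‖ < δ := by
  have hp' : (1 : ℝ) ≤ p := by exact_mod_cast hp
  obtain ⟨N', hN'⟩ := zero_along (p := p) (x := x)
    (H := {e | ∀ f ∈ F, ¬ (e < f ∧ f ≤ e + G)}) (fun A hA => h A hA)
    (δ := δ / (p : ℝ) ^ L) (by positivity)
  refine ⟨N + N' + L, fun e he hNe => ?_⟩
  obtain ⟨e', h1, h2, h3⟩ := hole e he (by omega)
  have h4 := hN' e' h3 (by omega)
  have h5 : ((p : ℤ) ^ e) • x = ((p : ℤ) ^ (e - e')) • ((p : ℤ) ^ e') • x := by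
    rw [smul_smul, ← pow_add]; congr 2; omega
  rw [h5]
  have h6 := norm_zsmul_le' ((p : ℤ) ^ (e - e')) (((p : ℤ) ^ e') • x)
  have h7 : |(((p : ℤ) ^ (e - e') : ℤ) : ℝ)| ≤ (p : ℝ) ^ L := by
    push_cast
    rw [abs_of_nonneg (by positivity)]
    exact pow_le_pow_right₀ hp' (by omega)
  rw [lt_div_iff₀ (by positivity)] at h4
  calc _ ≤ _ := h6
    _ ≤ (p : ℝ) ^ L * ‖((p : ℤ) ^ e') • x‖ := by gcongr
    _ < δ := by linarith

/-- bounded sums from a neighbourhood that contains all signed sums with exponents in holes -/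
lemma sums_of_nhd {x : Circ} {F : Set ℕ} {G : ℕ} {W : Set ℤ} (hW : ∀ v ∈ W, ‖v • x‖ ≤ 1 / 4)
    (hFW : ∀ (A : Finset ℕ) (ε : ℕ → ℤ), (∀ e, ε e = 1 ∨ ε e = -1) →
      (∀ e ∈ A, ∀ f ∈ F, ¬ (e < f ∧ f ≤ e + G)) → ∑ e ∈ A, ε e * (p : ℤ) ^ e ∈ W)
    (A : Finset ℕ) (hA : ∀ e ∈ A, ∀ f ∈ F, ¬ (e < f ∧ f ≤ e + G)) :
    ∑ e ∈ A, ‖((p : ℤ) ^ e) • x‖ ≤ 1 / 4 := by
  classical
  have h1 := signed_sum (fun e : {e // e ∈ A} => ((p : ℤ) ^ (e : ℕ)) • x) (fun I ε hε => ?_)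
    (Finset.univ)
  · rwa [← Finset.sum_coe_sort A (fun e => ‖((p : ℤ) ^ e) • x‖)]
  · set ε' : ℕ → ℤ := fun e => if h : e ∈ A then ε ⟨e, h⟩ else 1 with hε'
    have h2 : ∀ e, ε' e = 1 ∨ ε' e = -1 := by
      intro e
      by_cases h : e ∈ A
      · simp only [hε', h, dite_true]; exact hε _
      · left; simp [hε', h]
    have h3 := hFW (I.map (Function.Embedding.subtype _)) ε' h2 (by
      intro e he
      simp only [Finset.mem_map, Function.Embedding.coe_subtype] at he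
      obtain ⟨⟨a, ha⟩, -, rfl⟩ := he
      exact hA a ha)
    have h4 := hW _ h3
    rw [Finset.sum_map, Finset.sum_smul] at h4
    convert h4 using 2
    refine Finset.sum_congr rfl fun e _ => ?_
    rw [mul_smul]
    simp [hε']

end P

end Pool.Agent.Helper10_Mackey
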