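import Pool.Agent.Helper10_Mackey.Padic

set_option autoImplicit false

namespace Pool.Agent.Helper10_Mackey

open Filter Topology

variable {p : ℕ}

lemma exists_pow_bound (hp : 2 ≤ p) {δ : ℝ} (hδ : 0 < δ) : ∃ G : ℕ, (1 / (p : ℝ)) ^ G ≤ δ := by
  have hp0 : (0 : ℝ) < p := by positivity
  obtain ⟨G, hG⟩ := exists_pow_lt_of_lt_one hδ (show 1 / (p : ℝ) < 1 by
    rw [div_lt_one hp0]; exact_mod_cast hp)
  exact ⟨G, hG.le⟩

lemma mem_Hset_iff (x : Circ) : x ∈ Hset (fun n => p ^ n) ↔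
    ∃ (N : ℕ) (k : ℤ), x = (((k : ℝ) / ((p ^ N : ℕ) : ℝ) : ℝ) : Circ) := Iff.rfl

lemma mem_Hset_of_hole (hp : 2 ≤ p) {ι : Type*} (F : ι → Set ℕ)
    (hF : ∀ I : Finset ι, Hole (⋃ i ∈ I, F i)) {x : Circ}
    (hx : x ∈ charSet (⨅ i, tauOn (ee p '' F i))) : x ∈ Hset (fun n => p ^ n) := by
  obtain ⟨I, m, hm, h⟩ := (mem_charSet_iff _ x).mp hx
  have hm0 : (0 : ℝ) < m := by exact_mod_cast hm
  obtain ⟨G, hG⟩ := exists_pow_bound hp (show (0 : ℝ) < 1 / (4 * (m : ℝ)) by positivity)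
  rw [mem_Hset_iff]
  refine end_lemma hp fun δ hδ => ?_
  obtain ⟨L, N, hL⟩ := hF I G
  have hsum := sums_of_nhd (p := p) (x := x) (F := ⋃ i ∈ I, F i) (G := G)
    (W := {v : ℤ | ∀ i ∈ I, v ∈ Vset (ee p '' F i) m}) (fun v hv => h v hv) ?_
  · obtain ⟨N', hN'⟩ := all_of_hole (p := p) (x := x) (F := ⋃ i ∈ I, F i) (G := G) (L := L) (N := N)
      Set.univ (fun e _ he => hL e he) (by omega) hsum hδ
    exact ⟨N', fun e he => hN' e (Set.mem_univ _) he⟩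
  · rintro A ε hε hA i hi y ⟨f, hf, rfl⟩
    rw [mem_Tm hm]
    refine (hole_sum hp A (F := ⋃ i ∈ I, F i) hA ε hε ?_).trans hG
    simp only [Set.mem_iUnion]
    exact ⟨i, hi, hf⟩

lemma ee_mem_Hset (N : ℕ) : ee p N ∈ Hset (fun n => p ^ n) :=
  ⟨N, 1, by simp [ee]⟩

/-- `H_b` is generated by the `p^{-N}` : closure property of character sets -/
lemma Hset_subset_charSet (hp : 2 ≤ p) {ι : Type*} (S : ι → Set Circ)
    (h : ∀ N : ℕ, ∃ i, ∃ y ∈ S i, ∃ j : ℤ, ee p N = j • y) :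
    Hset (fun n => p ^ n) ⊆ charSet (⨅ i, tauOn (S i)) := by
  rintro x ⟨N, k, rfl⟩
  obtain ⟨i, y, hy, j, hj⟩ := h N
  have : (((k : ℝ) / ((p ^ N : ℕ) : ℝ) : ℝ) : Circ) = (k * j) • y := by
    rw [mul_smul, ← hj, ee, zsmul_coe]
    push_cast
    rw [mul_one_div]
  change (((k : ℝ) / ((p ^ N : ℕ) : ℝ) : ℝ) : Circ) ∈ _
  rw [this]
  exact zsmul_mem_charSet S hy _

lemma ee_of_le (hp : 2 ≤ p) {N f : ℕ} (h : N ≤ f) : ee p N = ((p : ℤ) ^ (f - N)) • ee p f := by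
  rw [pow_smul_ee_of_ge (by omega) (by omega)]
  congr 1; omega

lemma lam_le_of_dvd {b c : ℕ → ℕ} (h : ∀ n, ∃ m, b n ∣ c m) : lam c ≤ lam b := by
  unfold lam
  refine le_iInf fun n => ?_
  obtain ⟨m, hm⟩ := h n
  refine (iInf_le _ m).trans ?_
  have : (fun k : ℤ => (k : ZMod (b n))) =
      (ZMod.castHom hm (ZMod (b n))) ∘ (fun k : ℤ => (k : ZMod (c m))) := by
    funext k
    simp
  rw [this, ← induced_compose]
  exact induced_mono bot_le

lemma dvd_of_lam_eq {b c : ℕ → ℕ} (h : lam b ≤ lam c) (hb : ∀ n m, n ≤ m → b n ∣ b m) (n : ℕ) :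
    ∃ N, c n ∣ b N := by
  have h1 : lam b ≤ TopologicalSpace.induced (fun k : ℤ => (k : ZMod (c n))) ⊥ :=
    h.trans (iInf_le _ n)
  have h2 : {k : ℤ | (k : ZMod (c n)) = 0} ∈ @nhds ℤ (lam b) 0 := by
    have h3 : IsOpen[TopologicalSpace.induced (fun k : ℤ => (k : ZMod (c n))) ⊥]
        {k : ℤ | (k : ZMod (c n)) = 0} := by
      refine ⟨{0}, ?_, ?_⟩
      · exact trivial
      · ext k; simp
    have h4 : IsOpen[lam b] {k : ℤ | (k : ZMod (c n)) = 0} := h1 _ h3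
    letI := lam b
    exact h4.mem_nhds (by simp)
  unfold lam at h2
  rw [nhds_iInf, Filter.mem_iInf] at h2
  obtain ⟨I, hI, W, hW, hWeq⟩ := h2
  refine ⟨hI.toFinset.sup id, ?_⟩
  set M := hI.toFinset.sup id with hM
  have h5 : ((b M : ℕ) : ℤ) ∈ {k : ℤ | (k : ZMod (c n)) = 0} := by
    rw [hWeq]
    refine Set.mem_iInter.mpr fun i => ?_
    have h6 := hW i
    rw [nhds_induced, Filter.mem_comap] at h6
    obtain ⟨t, ht, hsub⟩ := h6
    refine hsub ?_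
    have h7 : b i ∣ b M := hb _ _ (by
      have : (i : ℕ) ∈ hI.toFinset := hI.mem_toFinset.mpr i.2
      exact Finset.le_sup (f := id) this)
    have h8 : (((b M : ℕ) : ℤ) : ZMod (b i)) = 0 := by
      have := (ZMod.natCast_eq_zero_iff (b M) (b i)).mpr h7
      simpa using this
    change (((b M : ℕ) : ℤ) : ZMod (b i)) ∈ t
    rw [h8]
    have h9 := mem_of_mem_nhds ht
    simpa using h9
  have h6 : ((b M : ℕ) : ZMod (c n)) = 0 := by simpa using h5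
  exact (ZMod.natCast_eq_zero_iff _ _).mp h6

lemma isDSeq_pow (hp : 2 ≤ p) : IsDSeq (fun n => p ^ n) :=
  ⟨by simp, fun n => by positivity, fun n => ⟨pow_dvd_pow p (Nat.le_succ n), by
    have := Nat.pow_lt_pow_right (a := p) (by omega) (Nat.lt_succ_self n)
    exact this.ne⟩⟩

/-- exponents of a sequence in `D_∞` with the same linear topology as `(p^n)` -/
lemma exponents (hp : p.Prime) {c : ℕ → ℕ} (hc : IsDInf c) (hl : lam c = lam (fun n => p ^ n)) :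
    ∃ e : ℕ → ℕ, (∀ n, c n = p ^ e n) ∧ Gaps (e '' {n | 1 ≤ n}) := by
  have h1 : ∀ n, ∃ k, c n = p ^ k := by
    intro n
    obtain ⟨N, hN⟩ := dvd_of_lam_eq (b := fun n => p ^ n) (c := c) hl.ge
      (fun n m h => pow_dvd_pow p h) n
    obtain ⟨k, -, hk⟩ := (Nat.dvd_prime_pow hp).mp hN
    exact ⟨k, hk⟩
  choose e he using h1
  refine ⟨e, he, ?_⟩
  have hp2 := hp.two_le
  have hmono : StrictMono e := by
    refine strictMono_nat_of_lt_succ fun n => ?_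
    have h2 := (hc.1.2.2 n).1
    have h3 := (hc.1.2.2 n).2
    rw [he n, he (n + 1)] at h2 h3
    have h4 := (Nat.pow_dvd_pow_iff_le_right (by omega : 1 < p)).mp h2
    rcases h4.lt_or_eq with h5 | h5
    · exact h5
    · exact absurd (by rw [h5]) h3
  intro D
  obtain ⟨N, hN⟩ := (hc.2.eventually (eventually_gt_atTop ((p : ℝ) ^ D))).exists_forall_of_atTop
  refine ⟨e N, ?_⟩
  rintro _ ⟨n, -, rfl⟩ _ ⟨n', -, rfl⟩ h5 h6
  have hn : N ≤ n := hmono.le_iff_le.mp h5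
  have hn' : n < n' := hmono.lt_iff_lt.mp h6
  have h7 := hN n hn
  rw [he n, he (n + 1)] at h7
  have hp0 : (0 : ℝ) < (p : ℝ) := by exact_mod_cast hp.pos
  have h8 : (p : ℝ) ^ (e n + D) < (p : ℝ) ^ (e (n + 1)) := by
    push_cast at h7
    rw [lt_div_iff₀ (by positivity)] at h7
    rw [pow_add, mul_comm]
    exact h7
  have h9 : e n + D < e (n + 1) :=
    (pow_lt_pow_iff_right₀ (show (1 : ℝ) < p by exact_mod_cast hp.one_lt)).mp h8
  exact h9.trans_le (hmono.monotone hn')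

lemma tau_eq {c e : ℕ → ℕ} (he : ∀ n, c n = p ^ e n) :
    tau c = tauOn (ee p '' (e '' {n | 1 ≤ n})) := by
  unfold tau
  congr 1
  ext x
  simp only [Set.mem_image, exists_exists_and_eq_and, ee]
  constructor
  · rintro ⟨n, hn, rfl⟩
    exact ⟨n, hn, by rw [he n]; push_cast; rfl⟩
  · rintro ⟨n, hn, rfl⟩
    exact ⟨n, hn, by rw [he n]; push_cast; rfl⟩

lemma sq_aux (n : ℕ) : (n + 1) ^ 2 = n ^ 2 + 2 * n + 1 := by ring

lemma isDInf_sq (hp : 2 ≤ p) : IsDInf (fun n => p ^ (n ^ 2)) := by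
  refine ⟨⟨by simp, fun n => by positivity, fun n => ⟨pow_dvd_pow p (by
    have := sq_aux n; omega), ?_⟩⟩, ?_⟩
  · have := Nat.pow_lt_pow_right (a := p) (by omega) (show n ^ 2 < (n + 1) ^ 2 by
      have := sq_aux n; omega)
    exact this.ne
  · have hp0 : (0 : ℝ) < p := by positivity
    have h1 : (fun n : ℕ => ((p ^ ((n + 1) ^ 2) : ℕ) : ℝ) / ((p ^ (n ^ 2) : ℕ) : ℝ)) =
        fun n : ℕ => (p : ℝ) ^ (2 * n + 1) := by
      funext n
      push_cast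
      rw [div_eq_iff (by positivity), ← pow_add]
      congr 1; ring
    rw [h1]
    have h2 : Tendsto (fun n : ℕ => (p : ℝ) ^ n) atTop atTop :=
      tendsto_pow_atTop_atTop_of_one_lt (by exact_mod_cast hp)
    exact h2.comp (tendsto_atTop_mono (fun n => (by omega : n ≤ 2 * n + 1)) tendsto_id)

lemma lam_sq (hp : 2 ≤ p) : lam (fun n => p ^ (n ^ 2)) = lam (fun n => p ^ n) := by
  apply le_antisymm
  · exact lam_le_of_dvd fun n => ⟨n, pow_dvd_pow p (by nlinarith)⟩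
  · exact lam_le_of_dvd fun n => ⟨n ^ 2, dvd_rfl⟩

/-- `s_b` is compatible for `b = (p^n)` -/
theorem sTop_compatible (hp : p.Prime) :
    IsLQC (sTop (fun n => p ^ n)) ∧ charSet (sTop (fun n => p ^ n)) = Hset (fun n => p ^ n) := by
  have hp2 := hp.two_le
  have hex : ∀ c : {c : ℕ → ℕ // IsDInf c ∧ lam c = lam (fun n => p ^ n)},
      ∃ e : ℕ → ℕ, (∀ n, c.1 n = p ^ e n) ∧ Gaps (e '' {n | 1 ≤ n}) :=
    fun c => exponents hp c.2.1 c.2.2
  choose e he hgap using hex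
  have hs : sTop (fun n => p ^ n) =
      ⨅ c : {c : ℕ → ℕ // IsDInf c ∧ lam c = lam (fun n => p ^ n)},
        tauOn (ee p '' (e c '' {n | 1 ≤ n})) := by
    unfold sTop
    exact iInf_congr fun c => tau_eq (he c)
  rw [hs]
  refine ⟨isLQC_iInf_tauOn _, Set.Subset.antisymm ?_ ?_⟩
  · intro x hx
    exact mem_Hset_of_hole hp2 (fun c => e c '' {n | 1 ≤ n})
      (fun I => hole_biUnion _ hgap I) hx
  · refine Hset_subset_charSet hp2 _ fun N => ?_
    set c : {c : ℕ → ℕ // IsDInf c ∧ lam c = lam (fun n => p ^ n)} :=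
      ⟨fun n => p ^ (n ^ 2), isDInf_sq hp2, lam_sq hp2⟩ with hc
    refine ⟨c, ee p (e c (N + 1)), ⟨e c (N + 1), ⟨N + 1, by simp, rfl⟩, rfl⟩,
      (p : ℤ) ^ (e c (N + 1) - N), ee_of_le hp2 ?_⟩
    have h1 := he c (N + 1)
    have h2 : e c (N + 1) = (N + 1) ^ 2 := by
      have : p ^ ((N + 1) ^ 2) = p ^ e c (N + 1) := h1
      exact (Nat.pow_right_injective hp2 this).symm
    rw [h2]; nlinarith

end Pool.Agent.Helper10_Mackey
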