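import Pool.Agent.Helper10_Mackey.JK

set_option autoImplicit false

namespace Pool.Agent.Helper10_Mackey

open Filter Topology

variable {p : ℕ}

/-- exponents of the bad character -/
def gg (s : ℕ) : ℕ := ii (s + 1) (s + 1)

lemma gg_add (s t : ℕ) : gg s + (t + 2) ≤ gg (t + (s + 1)) := by
  unfold gg ii
  have h := cube_step (show s + 1 < t + (s + 1) + 1 by omega)
  omega

lemma gg_strict {s t : ℕ} (h : s < t) : gg s + 2 ≤ gg t := by
  have := gg_add s (t - s - 1)
  have h2 : t - s - 1 + (s + 1) = t := by omega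
  rw [h2] at this
  omega

lemma le_gg (s : ℕ) : s ≤ gg s := by
  unfold gg ii
  omega

noncomputable def XX (p : ℕ) : ℝ := ∑' s : ℕ, (1 / (p : ℝ)) ^ gg s

lemma geo_summable (hp : 2 ≤ p) : Summable fun s : ℕ => (1 / (p : ℝ)) ^ s := by
  apply summable_geometric_of_lt_one (by positivity)
  rw [div_lt_one (by positivity)]
  exact_mod_cast hp

lemma XX_summable (hp : 2 ≤ p) : Summable fun s : ℕ => (1 / (p : ℝ)) ^ gg s :=
  Summable.of_nonneg_of_le (fun _ => by positivity) (fun s => inv_pow_anti hp (le_gg s))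
    (geo_summable hp)

lemma ee_eq (f : ℕ) : ee p f = (((1 / (p : ℝ)) ^ f : ℝ) : Circ) := by
  unfold ee
  rw [one_div_pow]

lemma smul_XX_hasSum (hp : 2 ≤ p) (v : ℤ) :
    HasSum (fun s : ℕ => v • ee p (gg s)) (v • ((XX p : ℝ) : Circ)) := by
  have h1 := (XX_summable hp).hasSum
  have h2 : HasSum (fun s : ℕ => (v : ℝ) * (1 / (p : ℝ)) ^ gg s) ((v : ℝ) * XX p) :=
    h1.mul_left _
  have h3 := h2.map (QuotientAddGroup.mk' (AddSubgroup.zmultiples (1 : ℝ)))
    (continuous_quotient_mk')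
  have h4 : (fun s : ℕ => v • ee p (gg s)) =
      (QuotientAddGroup.mk' (AddSubgroup.zmultiples (1 : ℝ))) ∘
        (fun s : ℕ => (v : ℝ) * (1 / (p : ℝ)) ^ gg s) := by
    funext s
    rw [ee_eq, zsmul_coe]
    rfl
  rw [h4, zsmul_coe]
  exact h3

lemma iter_norm (hp : 2 ≤ p) {y : Circ} {M : ℕ} {δ : ℝ} (hδ : (p : ℝ) * δ ≤ 1 / 2)
    (h : ∀ t, t ≤ M → ‖((p : ℤ) ^ t) • y‖ ≤ δ) : ‖y‖ ≤ (1 / (p : ℝ)) ^ M * δ := by
  have hp0 : (0 : ℝ) < p := by positivity
  have h1 : ∀ t, t ≤ M → ‖((p : ℤ) ^ t) • y‖ = (p : ℝ) ^ t * ‖y‖ := by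
    intro t
    induction t with
    | zero => intro _; simp
    | succ t ih =>
      intro ht
      have h2 : ((p : ℤ) ^ (t + 1)) • y = (p : ℤ) • ((p : ℤ) ^ t) • y := by
        rw [smul_smul, ← pow_succ']
      have h3 := h t (by omega)
      rw [h2, norm_p_smul, ih (by omega), pow_succ']
      · ring
      · have : (p : ℝ) * ‖((p : ℤ) ^ t) • y‖ ≤ (p : ℝ) * δ := by gcongr
        linarith
  have h2 := h M le_rfl
  rw [h1 M le_rfl] at h2
  rw [one_div_pow, div_mul_eq_mul_div, one_mul, le_div_iff₀ (by positivity)]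
  linarith

/-- the bad character is continuous for any topology finer than both -/
lemma XX_mem (hp : 2 ≤ p) {μ : TopologicalSpace ℤ} (hJ : μ ≤ tauOn (SJ p))
    (hK : μ ≤ tauOn (SK p)) : ((XX p : ℝ) : Circ) ∈ charSet μ := by
  have hp0 : 0 < p := by omega
  have h1 : μ ≤ ⨅ b : Bool, tauOn (cond b (SJ p) (SK p)) := by
    refine le_iInf fun b => ?_
    cases b
    · exact hK
    · exact hJ
  refine charSet_mono h1 ?_
  rw [mem_charSet_iff]
  have hm : 1 ≤ 4 * p := by omega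
  have hpR : (2 : ℝ) ≤ p := by exact_mod_cast hp
  refine ⟨Finset.univ, 4 * p, hm, fun v hv => ?_⟩
  have hvJ : v ∈ Vset (SJ p) (4 * p) := hv true (Finset.mem_univ _)
  have hvK : v ∈ Vset (SK p) (4 * p) := hv false (Finset.mem_univ _)
  have hI : ∀ s n, 1 ≤ n → n ≤ s → ‖v • ee p (ii s n)‖ ≤ 1 / (8 * (p : ℝ)) := by
    intro s n hn1 hn2
    have h2 := hvJ (ee p (jj s n)) ⟨jj s n, ⟨s, n, hn1, hn2, rfl⟩, rfl⟩
    have h3 := hvK (ee p (ii s n) + ee p (jj s n)) ⟨s, n, hn1, hn2, rfl⟩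
    rw [mem_Tm hm] at h2 h3
    have h4 : v • ee p (ii s n) = v • (ee p (ii s n) + ee p (jj s n)) - v • ee p (jj s n) := by
      rw [smul_add]; abel
    rw [h4]
    refine (norm_sub_le _ _).trans ?_
    have h5 : 1 / (8 * (p : ℝ)) = 1 / (4 * ((4 * p : ℕ) : ℝ)) + 1 / (4 * ((4 * p : ℕ) : ℝ)) := by
      push_cast
      field_simp
      norm_num
    rw [h5]
    linarith
  have hgg : ∀ s : ℕ, ‖v • ee p (gg s)‖ ≤ (1 / (p : ℝ)) ^ s * (1 / (8 * (p : ℝ))) := by
    intro s
    refine iter_norm hp ?_ fun t ht => ?_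
    · rw [mul_one_div, div_le_div_iff₀ (by positivity) (by norm_num)]
      linarith
    · have h2 : ((p : ℤ) ^ t) • v • ee p (gg s) = v • ee p (ii (s + 1) (s + 1 - t)) := by
        rw [smul_smul, mul_comm, mul_smul, pow_smul_ee_of_ge hp0]
        · congr 2
          unfold gg ii
          omega
        · unfold gg ii
          omega
      rw [h2]
      exact hI _ _ (by omega) (by omega)
  have hsum : HasSum (fun s : ℕ => (1 / (p : ℝ)) ^ s * (1 / (8 * (p : ℝ))))
      ((1 - 1 / (p : ℝ))⁻¹ * (1 / (8 * (p : ℝ)))) := by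
    refine (hasSum_geometric_of_lt_one (by positivity) ?_).mul_right _
    rw [div_lt_one (by positivity)]
    exact_mod_cast hp
  have h6 := (smul_XX_hasSum hp v).norm_le_of_bounded hsum hgg
  refine h6.trans ?_
  have h7 : 1 / (p : ℝ) ≤ 1 / 2 := one_div_le_one_div_of_le (by norm_num) hpR
  have h8 : (1 - 1 / (p : ℝ))⁻¹ ≤ 2 := by
    rw [inv_le_comm₀ (by linarith) (by norm_num)]
    linarith
  have h9 : 1 / (8 * (p : ℝ)) ≤ 1 / 16 := by
    apply one_div_le_one_div_of_le (by norm_num)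
    linarith
  have h10 : 0 ≤ 1 / (8 * (p : ℝ)) := by positivity
  nlinarith

lemma XX_notMem (hp : 2 ≤ p) : ((XX p : ℝ) : Circ) ∉ Hset (fun n => p ^ n) := by
  rw [mem_Hset_iff]
  rintro ⟨N, k, hk⟩
  have hp0 : (0 : ℝ) < p := by positivity
  have hpR : (2 : ℝ) ≤ p := by exact_mod_cast hp
  -- p^{gg N} X = 0 in the circle
  have h1 : ((p : ℤ) ^ gg N) • ((XX p : ℝ) : Circ) = 0 := by
    rw [hk, zsmul_coe]
    have : (((p : ℤ) ^ gg N : ℤ) : ℝ) * ((k : ℝ) / ((p ^ N : ℕ) : ℝ)) =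
        ((k * (p : ℤ) ^ (gg N - N) : ℤ) : ℝ) := by
      have h2 : (p : ℝ) ^ gg N = (p : ℝ) ^ (gg N - N) * (p : ℝ) ^ N := by
        rw [← pow_add]; congr 1; have := le_gg N; omega
      push_cast
      rw [h2]
      field_simp
    rw [this, coe_int]
  -- the tail
  have hts : Summable fun t : ℕ => (1 / (p : ℝ)) ^ (gg (t + (N + 1)) - gg N) := by
    refine Summable.of_nonneg_of_le (fun _ => by positivity)
      (fun t => inv_pow_anti hp (show t ≤ _ by have := gg_add N t; omega)) (geo_summable hp)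
  set Y : ℝ := ∑' t : ℕ, (1 / (p : ℝ)) ^ (gg (t + (N + 1)) - gg N) with hY
  have hYpos : 0 < Y := by
    refine hts.tsum_pos (fun _ => by positivity) 0 (by positivity)
  have hYle : Y ≤ 1 / 2 := by
    have h2 : Summable fun t : ℕ => (1 / (p : ℝ)) ^ t * (1 / (p : ℝ)) ^ 2 :=
      (geo_summable hp).mul_right _
    have h3 : Y ≤ ∑' t : ℕ, (1 / (p : ℝ)) ^ t * (1 / (p : ℝ)) ^ 2 := by
      refine hts.tsum_le_tsum (fun t => ?_) h2
      rw [← pow_add]
      refine inv_pow_anti hp ?_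
      have := gg_add N t
      omega
    have hlt : 1 / (p : ℝ) < 1 := by
      rw [div_lt_one (by positivity)]
      exact_mod_cast hp
    rw [tsum_mul_right, tsum_geometric_of_lt_one (by positivity) hlt] at h3
    refine h3.trans ?_
    have h7 : 1 / (p : ℝ) ≤ 1 / 2 := one_div_le_one_div_of_le (by norm_num) hpR
    have h8 : (1 - 1 / (p : ℝ))⁻¹ ≤ 2 := by
      rw [inv_le_comm₀ (by linarith) (by norm_num)]
      linarith
    have h9 : (1 / (p : ℝ)) ^ 2 ≤ (1 / 2) ^ 2 := by gcongr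
    have h10 : 0 ≤ (1 / (p : ℝ)) ^ 2 := by positivity
    nlinarith
  have hsplit : (p : ℝ) ^ gg N * XX p =
      ((∑ s ∈ Finset.range (N + 1), (p : ℤ) ^ (gg N - gg s) : ℤ) : ℝ) + Y := by
    unfold XX
    rw [← (XX_summable hp).sum_add_tsum_nat_add (N + 1), mul_add, ← tsum_mul_left]
    congr 1
    · rw [Finset.mul_sum]
      push_cast
      refine Finset.sum_congr rfl fun s hs => ?_
      rw [Finset.mem_range] at hs
      have h2 : gg s ≤ gg N := by
        rcases Nat.lt_or_ge s N with h | h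
        · have := gg_strict h; omega
        · have : s = N := by omega
          rw [this]
      have h3 : (p : ℝ) ^ gg N = (p : ℝ) ^ (gg N - gg s) * (p : ℝ) ^ gg s := by
        rw [← pow_add]; congr 1; omega
      rw [h3, one_div_pow]
      field_simp
    · rw [hY]
      congr 1
      funext t
      have h2 := gg_add N t
      obtain ⟨d, hd⟩ : ∃ d, gg (t + (N + 1)) = d + gg N :=
        ⟨gg (t + (N + 1)) - gg N, by omega⟩
      rw [hd, Nat.add_sub_cancel, one_div_pow, one_div_pow, pow_add]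
      field_simp
  rw [zsmul_coe] at h1
  push_cast at h1
  rw [hsplit, AddCircle.coe_add, coe_int, zero_add] at h1
  have h2 : ‖(Y : Circ)‖ = |Y| := norm_coe_eq (by rw [abs_of_pos hYpos]; exact hYle)
  rw [h1, norm_zero, abs_of_pos hYpos] at h2
  linarith

theorem no_mackey (hp : p.Prime) :
    ¬ ∃ μ : TopologicalSpace ℤ, IsMackey μ (Hset (fun n => p ^ n)) := by
  rintro ⟨μ, -, hμ, hmax⟩
  have h1 := XX_mem hp.two_le (hmax _ (isLQC_tauOn _) (J_compatible hp))
    (hmax _ (isLQC_tauOn _) (K_compatible hp))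
  rw [hμ] at h1
  exact XX_notMem hp.two_le h1

end Pool.Agent.Helper10_Mackey
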