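import Pool.Agent.Helper10_Mackey.Basic

set_option autoImplicit false

namespace Pool.Agent.Helper10_Mackey

open Filter Topology

lemma Tm_anti {i j : ℕ} (hi : 1 ≤ i) (hij : i ≤ j) : Tm j ⊆ Tm i := by
  intro x hx
  rw [mem_Tm (hi.trans hij)] at hx
  rw [mem_Tm hi]
  refine hx.trans (one_div_le_one_div_of_le ?_ ?_)
  · have : (0 : ℝ) < i := by exact_mod_cast hi
    positivity
  · have : (i : ℝ) ≤ j := by exact_mod_cast hij
    linarith

lemma Vset_anti (S : Set Circ) {i j : ℕ} (hi : 1 ≤ i) (hij : i ≤ j) : Vset S j ⊆ Vset S i :=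
  fun _ hk x hx => Tm_anti hi hij (hk x hx)

lemma zero_mem_Vset (S : Set Circ) (m : ℕ) (hm : 1 ≤ m) : (0 : ℤ) ∈ Vset S m := by
  intro x _
  rw [mem_Tm hm, zero_smul, norm_zero]
  positivity

lemma add_mem_Vset {S : Set Circ} {m : ℕ} (hm : 1 ≤ m) {k l : ℤ} (hk : k ∈ Vset S (2 * m))
    (hl : l ∈ Vset S (2 * m)) : k + l ∈ Vset S m := by
  intro x hx
  have h1 := hk x hx
  have h2 := hl x hx
  rw [mem_Tm (by omega)] at h1 h2
  rw [mem_Tm hm, add_smul]
  have h3 := norm_add_le (k • x) (l • x)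
  have h4 : 1 / (4 * ((2 * m : ℕ) : ℝ)) + 1 / (4 * ((2 * m : ℕ) : ℝ)) = 1 / (4 * (m : ℝ)) := by
    have : (m : ℝ) ≠ 0 := by positivity
    push_cast
    field_simp
    norm_num
  linarith

lemma neg_mem_Vset {S : Set Circ} {m : ℕ} (hm : 1 ≤ m) {k : ℤ} (hk : k ∈ Vset S m) :
    -k ∈ Vset S m := by
  intro x hx
  have h1 := hk x hx
  rw [mem_Tm hm] at h1 ⊢
  rwa [neg_smul, norm_neg]

lemma mem_nhds_tauOn (S : Set Circ) (k : ℤ) (U : Set ℤ) :
    U ∈ @nhds ℤ (tauOn S) k ↔ ∃ m : ℕ, 1 ≤ m ∧ ∀ v ∈ Vset S m, k + v ∈ U := by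
  letI := tauOn S
  constructor
  · intro h
    obtain ⟨W, hWU, hW, hk⟩ := mem_nhds_iff.mp h
    obtain ⟨m, hm, hv⟩ := hW k hk
    exact ⟨m, hm, fun v hv' => hWU (hv v hv')⟩
  · rintro ⟨m, hm, h⟩
    refine mem_nhds_iff.mpr ⟨{l | ∃ m : ℕ, 1 ≤ m ∧ ∀ v ∈ Vset S m, l + v ∈ U}, ?_, ?_, ⟨m, hm, h⟩⟩
    · rintro l ⟨m', hm', h'⟩
      simpa using h' 0 (zero_mem_Vset S m' hm')
    · rintro l ⟨m', hm', h'⟩
      refine ⟨2 * m', by omega, fun v hv => ⟨2 * m', by omega, fun w hw => ?_⟩⟩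
      rw [add_assoc]
      exact h' _ (add_mem_Vset hm' hv hw)

lemma group_tauOn (S : Set Circ) : @IsTopologicalAddGroup ℤ (tauOn S) _ := by
  letI := tauOn S
  refine IsTopologicalAddGroup.of_comm_of_nhds_zero ?_ ?_ ?_
  · intro U hU
    obtain ⟨m, hm, h⟩ := (mem_nhds_tauOn S 0 U).mp hU
    have hV : Vset S (2 * m) ∈ 𝓝 (0 : ℤ) :=
      (mem_nhds_tauOn S 0 _).mpr ⟨2 * m, by omega, fun v hv => by simpa using hv⟩
    refine Filter.mem_map.mpr (Filter.mem_of_superset (Filter.prod_mem_prod hV hV) ?_)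
    rintro ⟨a, b⟩ ⟨ha, hb⟩
    have := h (a + b) (add_mem_Vset hm ha hb)
    simpa using this
  · intro U hU
    obtain ⟨m, hm, h⟩ := (mem_nhds_tauOn S 0 U).mp hU
    refine (mem_nhds_tauOn S 0 _).mpr ⟨m, hm, fun v hv => ?_⟩
    have := h (-v) (neg_mem_Vset hm hv)
    simpa using this
  · intro k
    ext U
    rw [Filter.mem_map, mem_nhds_tauOn, mem_nhds_tauOn]
    simp

/-- neighbourhoods of zero in the join (in the order of refinement) of a family `tauOn (S i)` -/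
lemma mem_nhds_iInf_tauOn {ι : Type*} (S : ι → Set Circ) (U : Set ℤ) :
    U ∈ @nhds ℤ (⨅ i, tauOn (S i)) 0 ↔
      ∃ (I : Finset ι) (m : ℕ), 1 ≤ m ∧ ∀ v : ℤ, (∀ i ∈ I, v ∈ Vset (S i) m) → v ∈ U := by
  classical
  rw [nhds_iInf, Filter.mem_iInf]
  constructor
  · rintro ⟨I, hI, W, hW, rfl⟩
    have : ∀ i : I, ∃ m : ℕ, 1 ≤ m ∧ ∀ v ∈ Vset (S i) m, v ∈ W i := by
      intro i
      obtain ⟨m, hm, h⟩ := (mem_nhds_tauOn _ _ _).mp (hW i)
      exact ⟨m, hm, fun v hv => by simpa using h v hv⟩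
    choose m hm h using this
    refine ⟨hI.toFinset, (∑ i ∈ hI.toFinset.attach, m ⟨i.1, hI.mem_toFinset.mp i.2⟩) + 1, by omega,
      fun v hv => ?_⟩
    refine Set.mem_iInter.mpr fun i => ?_
    refine h i v (Vset_anti _ (hm i) ?_ (hv i (by simp)))
    have h1 : m i ≤ ∑ i ∈ hI.toFinset.attach, m ⟨i.1, hI.mem_toFinset.mp i.2⟩ :=
      Finset.single_le_sum (f := fun i : {x // x ∈ hI.toFinset} => m ⟨i.1, hI.mem_toFinset.mp i.2⟩)
        (fun _ _ => Nat.zero_le _) (Finset.mem_attach _ ⟨i.1, by simp⟩)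
    omega
  · rintro ⟨I, m, hm, h⟩
    refine ⟨I, I.finite_toSet, fun i => {v | v ∈ Vset (S i) m} ∪ {v | v ∈ U}, fun i => ?_, ?_⟩
    · exact (mem_nhds_tauOn _ _ _).mpr ⟨m, hm, fun v hv => Or.inl (by simpa using hv)⟩
    · ext v
      simp only [Set.mem_iInter, Set.mem_union, Set.mem_ofPred_eq]
      constructor
      · intro hv i
        exact Or.inr hv
      · intro hv
        by_cases hvU : v ∈ U
        · exact hvU
        · exact h v fun i hi => (hv ⟨i, hi⟩).resolve_right hvU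

lemma group_iInf_tauOn {ι : Type*} (S : ι → Set Circ) :
    @IsTopologicalAddGroup ℤ (⨅ i, tauOn (S i)) _ :=
  topologicalAddGroup_iInf fun i => group_tauOn (S i)

/-- the character of `ℤ` with value `x` at `1` -/
def chr (x : Circ) : ℤ →+ Circ := (zmultiplesHom Circ) x

@[simp] lemma chr_apply (x : Circ) (k : ℤ) : chr x k = k • x := rfl

lemma eq_chr (χ : ℤ →+ Circ) : χ = chr (χ 1) := by
  ext
  simp

/-- continuity criterion for characters -/
lemma chr_mem_chars_iff {ι : Type*} (S : ι → Set Circ) (x : Circ) :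
    chr x ∈ chars (⨅ i, tauOn (S i)) ↔
      ∃ (I : Finset ι) (m : ℕ), 1 ≤ m ∧ ∀ v : ℤ, (∀ i ∈ I, v ∈ Vset (S i) m) → ‖v • x‖ ≤ 1 / 4 := by
  letI τ : TopologicalSpace ℤ := ⨅ i, tauOn (S i)
  haveI : IsTopologicalAddGroup ℤ := group_iInf_tauOn S
  constructor
  · intro h
    have h' : Continuous (chr x) := h
    have h1 : Metric.closedBall (0 : Circ) (1 / 4) ∈ 𝓝 ((chr x) 0) := by
      rw [map_zero]
      exact Metric.closedBall_mem_nhds _ (by norm_num)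
    have h2 := h'.continuousAt.preimage_mem_nhds h1
    obtain ⟨I, m, hm, hv⟩ := (mem_nhds_iInf_tauOn S _).mp h2
    refine ⟨I, m, hm, fun v hv' => ?_⟩
    have := hv v hv'
    simpa [dist_zero_right] using this
  · rintro ⟨I, m, hm, h⟩
    change Continuous (chr x)
    refine continuous_of_continuousAt_zero (chr x) ?_
    rw [ContinuousAt, map_zero, Metric.tendsto_nhds]
    intro ε hε
    obtain ⟨j, hj⟩ := exists_nat_gt (1 / (4 * ε))
    have hj0 : (0 : ℝ) < j := lt_of_le_of_lt (by positivity) hj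
    have hj1 : 1 ≤ j := by exact_mod_cast hj0
    refine (mem_nhds_iInf_tauOn S _).mpr ⟨I, j * m, Nat.one_le_iff_ne_zero.mpr (by
      have := hj1; positivity), fun v hv => ?_⟩
    change dist (chr x v) 0 < ε
    rw [dist_zero_right, chr_apply]
    have key : (j : ℝ) * ‖v • x‖ ≤ 1 / 4 := by
      refine multiples fun i hi1 hij => ?_
      rw [smul_smul]
      refine h _ fun a ha y hy => ?_
      have h1 := hv a ha y hy
      rw [mem_Tm (Nat.one_le_iff_ne_zero.mpr (by have := hj1; positivity))] at h1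
      rw [mem_Tm hm, mul_smul]
      have h2 := norm_zsmul_le' (i : ℤ) (v • y)
      have hm0 : (0 : ℝ) < m := by exact_mod_cast hm
      calc ‖(i : ℤ) • v • y‖ ≤ |((i : ℤ) : ℝ)| * ‖v • y‖ := h2
        _ = (i : ℝ) * ‖v • y‖ := by rw [abs_of_nonneg (by positivity)]; simp
        _ ≤ (j : ℝ) * (1 / (4 * ((j * m : ℕ) : ℝ))) := by
            have : (i : ℝ) ≤ j := by exact_mod_cast hij
            gcongr
        _ = 1 / (4 * (m : ℝ)) := by
            push_cast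
            field_simp
    have : ‖v • x‖ ≤ 1 / 4 / j := by
      rw [le_div_iff₀ hj0]; linarith
    refine lt_of_le_of_lt this ?_
    rw [div_lt_iff₀ hj0]
    rw [div_lt_iff₀ (by positivity)] at hj
    linarith

lemma mem_charSet_iff {ι : Type*} (S : ι → Set Circ) (x : Circ) :
    x ∈ charSet (⨅ i, tauOn (S i)) ↔
      ∃ (I : Finset ι) (m : ℕ), 1 ≤ m ∧ ∀ v : ℤ, (∀ i ∈ I, v ∈ Vset (S i) m) → ‖v • x‖ ≤ 1 / 4 := by
  rw [← chr_mem_chars_iff]
  constructor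
  · rintro ⟨χ, hχ, rfl⟩
    rw [← eq_chr]; exact hχ
  · intro h
    exact ⟨chr x, h, by simp⟩

lemma quasiConvex_prepolar {τ : TopologicalSpace ℤ} {B : Set (ℤ →+ Circ)} (hB : B ⊆ chars τ) :
    QuasiConvex τ (prepolar B) := by
  apply Set.Subset.antisymm
  · intro x hx χ hχ
    exact hχ.2 x hx
  · intro x hx χ hχ
    exact hx χ ⟨hB hχ, fun a ha => ha χ hχ⟩

lemma zsmul_mem_charSet {ι : Type*} (S : ι → Set Circ) {i : ι} {y : Circ} (hy : y ∈ S i) (j : ℤ) :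
    j • y ∈ charSet (⨅ i, tauOn (S i)) := by
  rw [mem_charSet_iff]
  refine ⟨{i}, j.natAbs + 1, by omega, fun v hv => ?_⟩
  have h1 := hv i (by simp) y hy
  rw [mem_Tm (by omega)] at h1
  rw [smul_smul, mul_comm, mul_smul]
  have h2 := norm_zsmul_le' j (v • y)
  have h3 : |(j : ℝ)| = (j.natAbs : ℝ) := by simp
  rw [h3] at h2
  calc ‖j • v • y‖ ≤ (j.natAbs : ℝ) * ‖v • y‖ := h2
    _ ≤ ((j.natAbs + 1 : ℕ) : ℝ) * (1 / (4 * ((j.natAbs + 1 : ℕ) : ℝ))) := by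
        have : (j.natAbs : ℝ) ≤ ((j.natAbs + 1 : ℕ) : ℝ) := by push_cast; linarith
        gcongr
    _ = 1 / 4 := by
        push_cast
        field_simp

lemma isLQC_iInf_tauOn {ι : Type*} (S : ι → Set Circ) : IsLQC (⨅ i, tauOn (S i)) where
  group := group_iInf_tauOn S
  basis := by
    intro U hU
    obtain ⟨I, m, hm, h⟩ := (mem_nhds_iInf_tauOn S U).mp hU
    have hm0 : (0 : ℝ) < m := by exact_mod_cast hm
    refine ⟨prepolar {χ | ∃ i ∈ I, ∃ y ∈ S i, ∃ j : ℕ, 1 ≤ j ∧ j ≤ m ∧ χ = chr ((j : ℤ) • y)},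
      ?_, ?_, ?_⟩
    · refine (mem_nhds_iInf_tauOn S _).mpr ⟨I, m, hm, ?_⟩
      rintro v hv χ ⟨i, hi, y, hy, j, hj1, hjm, rfl⟩
      rw [mem_T1, chr_apply, smul_smul, mul_comm, mul_smul]
      have h1 := hv i hi y hy
      rw [mem_Tm hm] at h1
      have h2 := norm_zsmul_le' (j : ℤ) (v • y)
      calc ‖(j : ℤ) • v • y‖ ≤ |((j : ℤ) : ℝ)| * ‖v • y‖ := h2
        _ = (j : ℝ) * ‖v • y‖ := by rw [abs_of_nonneg (by positivity)]; simp
        _ ≤ (m : ℝ) * (1 / (4 * (m : ℝ))) := by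
            have : (j : ℝ) ≤ m := by exact_mod_cast hjm
            gcongr
        _ = 1 / 4 := by field_simp
    · apply quasiConvex_prepolar
      rintro χ ⟨i, hi, y, hy, j, hj1, hjm, rfl⟩
      obtain ⟨χ', hχ', h1⟩ := zsmul_mem_charSet S hy (j : ℤ)
      rw [← h1, ← eq_chr]
      exact hχ'
    · intro v hv
      refine h v fun i hi y hy => ?_
      rw [mem_Tm hm]
      have key : (m : ℝ) * ‖v • y‖ ≤ 1 / 4 := by
        refine multiples fun j hj1 hjm => ?_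
        have := hv (chr ((j : ℤ) • y)) ⟨i, hi, y, hy, j, hj1, hjm, rfl⟩
        rw [mem_T1, chr_apply] at this
        rwa [smul_smul, mul_comm, mul_smul]
      rw [le_div_iff₀ (by positivity)]
      linarith

lemma charSet_mono {τ σ : TopologicalSpace ℤ} (h : τ ≤ σ) : charSet σ ⊆ charSet τ := by
  rintro x ⟨χ, hχ, rfl⟩
  exact ⟨χ, continuous_le_dom h hχ, rfl⟩

lemma tauOn_eq_iInf (S : Set Circ) : tauOn S = ⨅ _ : Unit, tauOn S := (iInf_const).symm

lemma isLQC_tauOn (S : Set Circ) : IsLQC (tauOn S) := by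
  rw [tauOn_eq_iInf]; exact isLQC_iInf_tauOn _

lemma mem_charSet_tauOn_iff (S : Set Circ) (x : Circ) :
    x ∈ charSet (tauOn S) ↔ ∃ m : ℕ, 1 ≤ m ∧ ∀ v ∈ Vset S m, ‖v • x‖ ≤ 1 / 4 := by
  rw [tauOn_eq_iInf, mem_charSet_iff]
  constructor
  · rintro ⟨I, m, hm, h⟩
    exact ⟨m, hm, fun v hv => h v fun _ _ => hv⟩
  · rintro ⟨m, hm, h⟩
    exact ⟨{()}, m, hm, fun v hv => h v (hv () (by simp))⟩

end Pool.Agent.Helper10_Mackey
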